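import Mathlib

set_option autoImplicit false

namespace Pool.Agent.H318Z.CF

open Filter Topology MeasureTheory ProbabilityTheory Finset

/-- a sequence of indices with prescribed averages of countably many bounded functions -/
lemma exists_seq {ι : Type} [Countable ι] (q : ι → ℝ) (hq : ∀ i, 0 ≤ q i) (hs : HasSum q 1)
    (f : ℕ → ι → ℝ) (L : ℝ) (hb : ∀ k i, |f k i| ≤ L) (s : ℕ → ℝ)
    (hf : ∀ k, HasSum (fun i => q i * f k i) (s k)) :
    ∃ J : ℕ → ι, ∀ k, Tendsto (fun n : ℕ => (∑ i ∈ range n, f k (J i)) / n) atTop (𝓝 (s k)) := by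
  let _ : MeasurableSpace ι := ⊤
  have _ : MeasurableSingletonClass ι := ⟨fun _ => trivial⟩
  let p : PMF ι := ⟨fun i => ENNReal.ofReal (q i), by
    have h1 := ENNReal.ofReal_tsum_of_nonneg hq hs.summable
    rw [hs.tsum_eq, ENNReal.ofReal_one] at h1
    rw [h1]
    exact ENNReal.summable.hasSum⟩
  obtain ⟨Ω, mΩ, P, X, hXm, hXl, hXi, hP⟩ := exists_iid ℕ p.toMeasure
  have hm : ∀ k, Measurable (f k) := fun k => measurable_from_top
  have hint : ∀ k, Integrable (f k) p.toMeasure := fun k =>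
    Integrable.of_bound (hm k).aestronglyMeasurable L (Eventually.of_forall fun i => hb k i)
  have key : ∀ k, ∀ᵐ ω ∂P, Tendsto (fun n : ℕ => (∑ i ∈ range n, f k (X i ω)) / n) atTop
      (𝓝 (s k)) := by
    intro k
    have h1 := strong_law_ae_real (μ := P) (fun i ω => f k (X i ω))
      (Integrable.of_bound ((hm k).comp (hXm 0)).aestronglyMeasurable L
        (Eventually.of_forall fun ω => hb k _))
      (fun i j hij => (hXi.indepFun hij).comp (hm k) (hm k))
      (fun i => ((hXl i).identDistrib (hXl 0)).comp (hm k))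
    have h2 : ∫ ω, f k (X 0 ω) ∂P = s k := by
      have h3 := (hXl 0).integral_comp (hm k).aestronglyMeasurable
      have h4 : ∫ ω, f k (X 0 ω) ∂P = ∫ i, f k i ∂p.toMeasure := h3
      rw [h4, PMF.integral_eq_tsum p _ (hint k), ← (hf k).tsum_eq]
      congr 1
      ext i
      show (ENNReal.ofReal (q i)).toReal • f k i = _
      rw [ENNReal.toReal_ofReal (hq i), smul_eq_mul]
    rw [h2] at h1
    exact h1
  obtain ⟨ω, hω⟩ := (ae_all_iff.2 key).exists
  exact ⟨fun i => X i ω, hω⟩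

/-- digits of a continued fraction from its tails -/
lemma digits_of_tails (a : ℕ → ℕ) (τ : ℕ → ℝ) (h1 : ∀ i, 1 < τ i)
    (h : ∀ i, τ i = a i + (τ (i + 1))⁻¹) (i : ℕ) :
    (GenContFract.of (τ 0)⁻¹).partDens.get? i = some (a i : ℝ) := by
  have hp : ∀ i, 0 < (τ i)⁻¹ := fun i => inv_pos.2 (by linarith [h1 i])
  have hl : ∀ i, (τ i)⁻¹ < 1 := fun i => inv_lt_one_of_one_lt₀ (h1 i)
  have hfl : ∀ i, ⌊τ i⌋ = (a i : ℤ) := fun i => by
    rw [Int.floor_eq_iff]
    have := h i
    have := hp (i + 1)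
    have := hl (i + 1)
    push_cast
    constructor <;> linarith
  have hfr : ∀ i, Int.fract (τ i) = (τ (i + 1))⁻¹ := fun i => by
    rw [Int.fract, hfl i]
    have := h i
    push_cast
    linarith
  have hs : ∀ n, GenContFract.IntFractPair.stream (τ 0)⁻¹ (n + 1)
      = some (GenContFract.IntFractPair.of (τ n)) := by
    intro n
    induction n with
    | zero =>
      have e : (GenContFract.IntFractPair.of (τ 0)⁻¹).fr = (τ 0)⁻¹ :=
        Int.fract_eq_self.2 ⟨(hp 0).le, hl 0⟩
      have := GenContFract.IntFractPair.stream_succ_of_some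
        (GenContFract.IntFractPair.stream_zero (τ 0)⁻¹) (by rw [e]; exact (hp 0).ne')
      rwa [e, inv_inv] at this
    | succ n ih =>
      have e : (GenContFract.IntFractPair.of (τ n)).fr = (τ (n + 1))⁻¹ := hfr n
      have := GenContFract.IntFractPair.stream_succ_of_some ih (by rw [e]; exact (hp _).ne')
      rwa [e, inv_inv] at this
  have := GenContFract.partDen_eq_s_b
    (GenContFract.get?_of_eq_some_of_succ_get?_intFractPair_stream (hs i))
  rw [this]
  show some ((⌊τ i⌋ : ℤ) : ℝ) = _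
  rw [hfl i]; simp

/-- value of a finite word followed by a tail -/
noncomputable def ev : List ℕ → ℝ → ℝ
  | [], t => t
  | a :: l, t => a + (ev l t)⁻¹

lemma ev_ge : ∀ (l : List ℕ) (t : ℝ), (∀ a ∈ l, 1 ≤ a) → 1 ≤ t → 1 ≤ ev l t
  | [], _, _, ht => ht
  | a :: l, t, hl, ht => by
    have h1 := ev_ge l t (fun b hb => hl b (List.mem_cons_of_mem _ hb)) ht
    have h2 : (1 : ℝ) ≤ a := by exact_mod_cast hl a List.mem_cons_self
    have h3 : 0 < (ev l t)⁻¹ := inv_pos.2 (by linarith)
    simp only [ev]; linarith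

lemma ev_gt (l : List ℕ) (t : ℝ) (hl : ∀ a ∈ l, 1 ≤ a) (ht : 1 ≤ t) (hne : l ≠ []) :
    1 < ev l t := by
  obtain ⟨a, l, rfl⟩ := List.exists_cons_of_ne_nil hne
  have h1 := ev_ge l t (fun b hb => hl b (List.mem_cons_of_mem _ hb)) ht
  have h2 : (1 : ℝ) ≤ a := by exact_mod_cast hl a List.mem_cons_self
  have h3 : 0 < (ev l t)⁻¹ := inv_pos.2 (by linarith)
  simp only [ev]; linarith

lemma ev_le (l : List ℕ) (t : ℝ) (hl : ∀ a ∈ l, 1 ≤ a) (ht : 1 ≤ t) (hne : l ≠ []) :
    ev l t ≤ l.headI + 1 := by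
  obtain ⟨a, l, rfl⟩ := List.exists_cons_of_ne_nil hne
  have h1 := ev_ge l t (fun b hb => hl b (List.mem_cons_of_mem _ hb)) ht
  have h3 : (ev l t)⁻¹ ≤ 1 := inv_le_one_of_one_le₀ h1
  simp only [ev, List.headI_cons]; linarith

lemma ev_cont : ∀ (l : List ℕ), (∀ a ∈ l, 1 ≤ a) → ContinuousOn (ev l) (Set.Ici 1)
  | [], _ => continuousOn_id
  | a :: l, hl => by
    have hl' : ∀ b ∈ l, 1 ≤ b := fun b hb => hl b (List.mem_cons_of_mem _ hb)
    have h1 := ev_cont l hl'
    exact continuousOn_const.add (h1.inv₀ fun t ht => by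
      have := ev_ge l t hl' ht
      linarith)

lemma exists_tails (V : ℕ → List ℕ) (hV : ∀ n, ∀ a ∈ V n, 1 ≤ a) (hne : ∀ n, V n ≠ []) :
    ∃ T : ℕ → ℝ, ∀ n, 1 ≤ T n ∧ T n = ev (V n) (T (n + 1)) := by
  let K : Set (ℕ → ℝ) := Set.pi Set.univ fun n => Set.Icc 1 ((V n).headI + 1)
  have hK : IsCompact K := isCompact_univ_pi fun n => isCompact_Icc
  let C : ℕ → Set (ℕ → ℝ) := fun N => K ∩ ⋂ n ∈ Set.Iio N, (K ∩ {T | T n = ev (V n) (T (n + 1))})
  have hcl : ∀ n, IsClosed (K ∩ {T : ℕ → ℝ | T n = ev (V n) (T (n + 1))}) := by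
    intro n
    refine hK.isClosed.isClosed_eq (continuous_apply n).continuousOn ?_
    exact (ev_cont (V n) (hV n)).comp (continuous_apply (n + 1)).continuousOn
      fun T hT => (hT (n + 1) trivial).1
  have hC : ∀ N, IsClosed (C N) := fun N =>
    hK.isClosed.inter (isClosed_biInter fun n _ => hcl n)
  have hnon : ∀ N, (C N).Nonempty := by
    intro N
    -- backwards recursion
    have : ∀ d : ℕ, ∀ m, ∃ T : ℕ → ℝ, T ∈ K ∧ ∀ n, m ≤ n → n < m + d → T n = ev (V n) (T (n + 1)) := by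
      intro d
      induction d with
      | zero =>
        intro m
        refine ⟨fun _ => 1, fun n _ => ⟨le_rfl, by simp⟩, fun n h1 h2 => by omega⟩
      | succ d ih =>
        intro m
        obtain ⟨T, hT, h⟩ := ih (m + 1)
        have h1 : 1 ≤ T (m + 1) := (hT (m + 1) trivial).1
        refine ⟨Function.update T m (ev (V m) (T (m + 1))), fun n _ => ?_, fun n h2 h3 => ?_⟩
        · by_cases hn : n = m
          · subst hn
            rw [Function.update_self]
            exact ⟨ev_ge _ _ (hV n) h1, ev_le _ _ (hV n) h1 (hne n)⟩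
          · rw [Function.update_of_ne hn]; exact hT n trivial
        · by_cases hn : n = m
          · subst hn
            rw [Function.update_self, Function.update_of_ne (by omega)]
          · rw [Function.update_of_ne hn, Function.update_of_ne (by omega)]
            exact h n (by omega) (by omega)
    obtain ⟨T, hT, h⟩ := this N 0
    exact ⟨T, hT, Set.mem_iInter₂.2 fun n hn => ⟨hT, h n (Nat.zero_le _) (by simpa using hn)⟩⟩
  obtain ⟨T, hT⟩ := IsCompact.nonempty_iInter_of_sequence_nonempty_isCompact_isClosed C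
    (fun N T hT => ⟨hT.1, Set.mem_iInter₂.2 fun n hn =>
      Set.mem_iInter₂.1 hT.2 n (Nat.lt_succ_of_lt hn)⟩)
    hnon (hK.of_isClosed_subset (hC 0) Set.inter_subset_left) hC
  refine ⟨T, fun n => ?_⟩
  have h := Set.mem_iInter.1 hT (n + 1)
  exact ⟨(h.1 n trivial).1, (Set.mem_iInter₂.1 h.2 n (Nat.lt_succ_self n)).2⟩

end Pool.Agent.H318Z.CF
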