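import Pool.Agent.H318Z.CFA

set_option autoImplicit false

namespace Pool.Agent.H318Z.CF

open Filter Topology Finset

def step (V : ℕ → List ℕ) : ℕ × List ℕ → ℕ × List ℕ
  | (n, _ :: b :: l) => (n, b :: l)
  | (n, _) => (n + 1, V (n + 1))

def st (V : ℕ → List ℕ) : ℕ → ℕ × List ℕ
  | 0 => (0, V 0)
  | i + 1 => step V (st V i)

/-- the concatenation of the words `V 0, V 1, …` -/
def dig (V : ℕ → List ℕ) (i : ℕ) : ℕ := (st V i).2.headI

def cnt (V : ℕ → List ℕ) (k i : ℕ) : ℕ := ((range i).filter fun j => dig V j = k).card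

lemma cnt_succ (V : ℕ → List ℕ) (k i : ℕ) :
    cnt V k (i + 1) = cnt V k i + if dig V i = k then 1 else 0 := by
  unfold cnt
  rw [range_add_one, filter_insert]
  split_ifs with h
  · rw [card_insert_of_notMem (by simp)]
  · rfl

lemma inv (V : ℕ → List ℕ) (hne : ∀ n, V n ≠ []) (i : ℕ) :
    (st V i).2 ≠ [] ∧ ∃ pre, pre ++ (st V i).2 = V (st V i).1 ∧
      i = ∑ m ∈ range (st V i).1, (V m).length + pre.length ∧
      ∀ k, cnt V k i = ∑ m ∈ range (st V i).1, (V m).count k + pre.count k := by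
  induction i with
  | zero => exact ⟨hne 0, [], rfl, by simp [st], fun k => by simp [st, cnt]⟩
  | succ i ih =>
    obtain ⟨h0, pre, h1, h2, h3⟩ := ih
    have hd : ∀ k, cnt V k (i + 1) = cnt V k i + if (st V i).2.headI = k then 1 else 0 :=
      fun k => cnt_succ V k i
    rw [show st V (i + 1) = step V (st V i) from rfl]
    generalize st V i = s at h0 h1 h2 h3 hd
    obtain ⟨n, l⟩ := s
    match l, h0 with
    | [a], _ =>
      simp only [step] at h1 h2 h3 hd ⊢
      refine ⟨hne _, [], rfl, ?_, fun k => ?_⟩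
      · rw [sum_range_succ, ← h1]; simp; omega
      · rw [sum_range_succ, ← h1, hd, h3]
        simp [List.count_append, List.count_singleton, add_assoc]
    | a :: b :: l, _ =>
      simp only [step] at h1 h2 h3 hd ⊢
      refine ⟨by simp, pre ++ [a], by simpa using h1, ?_, fun k => ?_⟩
      · simp; omega
      · rw [hd, h3]
        simp [List.count_append, List.count_singleton, add_assoc]

lemma digits_flat (V : ℕ → List ℕ) (hV : ∀ n, ∀ a ∈ V n, 1 ≤ a) (hne : ∀ n, V n ≠ [])
    (U : ℕ → ℝ) (hU : ∀ n, 1 ≤ U n ∧ U n = ev (V n) (U (n + 1))) (i : ℕ) :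
    (GenContFract.of (U 0)⁻¹).partDens.get? i = some (dig V i : ℝ) := by
  have h := digits_of_tails (dig V) (fun i => ev (st V i).2 (U ((st V i).1 + 1))) (fun i => by
    obtain ⟨h0, pre, h1, -⟩ := inv V hne i
    exact ev_gt _ _ (fun a ha => hV (st V i).1 a (h1 ▸ List.mem_append_right _ ha)) (hU _).1 h0)
    (fun i => by
      obtain ⟨h0, -⟩ := inv V hne i
      simp only [dig]
      rw [show st V (i + 1) = step V (st V i) from rfl]
      generalize st V i = s at h0
      obtain ⟨n, l⟩ := s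
      match l, h0 with
      | [a], _ =>
        simp only [step, ev, List.headI_cons]
        rw [← (hU (n + 1)).2]
      | a :: b :: l, _ => simp only [step, ev, List.headI_cons]) i
  simp only [st] at h
  rwa [← (hU 0).2] at h

lemma card_eq_cnt (V : ℕ → List ℕ) (hV : ∀ n, ∀ a ∈ V n, 1 ≤ a) (hne : ∀ n, V n ≠ [])
    (U : ℕ → ℝ) (hU : ∀ n, 1 ≤ U n ∧ U n = ev (V n) (U (n + 1))) (k n : ℕ)
    [DecidablePred fun i => (GenContFract.of (U 0)⁻¹).partDens.get? i = some (k : ℝ)] :
    ((range n).filter fun i => (GenContFract.of (U 0)⁻¹).partDens.get? i = some (k : ℝ)).card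
      = cnt V k n := by
  unfold cnt
  congr 1
  apply filter_congr
  intro i _
  rw [digits_flat V hV hne U hU i]
  simp

lemma bounds (V : ℕ → List ℕ) (hne : ∀ n, V n ≠ []) (L : ℕ) (hL : ∀ n, (V n).length ≤ L) :
    ∃ N : ℕ → ℕ, Tendsto N atTop atTop ∧ ∀ i, (∃ j ≤ L, i = ∑ m ∈ range (N i), (V m).length + j) ∧
      ∀ k, ∃ e ≤ L, cnt V k i = ∑ m ∈ range (N i), (V m).count k + e := by
  have key : ∀ i, (∃ j ≤ L, i = ∑ m ∈ range (st V i).1, (V m).length + j) ∧
      ∀ k, ∃ e ≤ L, cnt V k i = ∑ m ∈ range (st V i).1, (V m).count k + e := by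
    intro i
    obtain ⟨-, pre, h1, h2, h3⟩ := inv V hne i
    have hp : pre.length ≤ L := by
      have := hL (st V i).1
      rw [← h1, List.length_append] at this
      omega
    exact ⟨⟨_, hp, h2⟩, fun k => ⟨_, List.count_le_length.trans hp, h3 k⟩⟩
  refine ⟨fun i => (st V i).1, ?_, key⟩
  rw [tendsto_atTop_atTop]
  intro b
  refine ⟨L * (b + 1) + 1, fun i hi => ?_⟩
  obtain ⟨j, hj, h⟩ := (key i).1
  have h1 : ∑ m ∈ range (st V i).1, (V m).length ≤ (st V i).1 * L := by
    have := sum_le_card_nsmul (range (st V i).1) (fun m => (V m).length) L fun m _ => hL m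
    simpa using this
  by_contra hc
  push Not at hc
  have : (st V i).1 * L ≤ b * L := Nat.mul_le_mul_right _ hc.le
  nlinarith

lemma lim_ratio (N : ℕ → ℕ) (hN : Tendsto N atTop atTop) (A B : ℕ → ℝ) (α β : ℝ) (hβ : β ≠ 0)
    (hA : Tendsto (fun n : ℕ => A n / n) atTop (𝓝 α))
    (hB : Tendsto (fun n : ℕ => B n / n) atTop (𝓝 β)) (e j : ℕ → ℝ) (L : ℝ)
    (he : ∀ i, |e i| ≤ L) (hj : ∀ i, |j i| ≤ L) :
    Tendsto (fun i => (A (N i) + e i) / (B (N i) + j i)) atTop (𝓝 (α / β)) := by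
  have h0 : Tendsto (fun i => L / (N i : ℝ)) atTop (𝓝 0) :=
    (tendsto_const_div_atTop_nhds_zero_nat L).comp hN
  have hz : ∀ e : ℕ → ℝ, (∀ i, |e i| ≤ L) → Tendsto (fun i => e i / (N i : ℝ)) atTop (𝓝 0) := by
    intro e he
    refine squeeze_zero_norm (fun i => ?_) h0
    rw [Real.norm_eq_abs, abs_div, Nat.abs_cast]
    exact div_le_div_of_nonneg_right (he i) (Nat.cast_nonneg _)
  have h1 := ((hA.comp hN).add (hz e he)).div ((hB.comp hN).add (hz j hj)) (by simpa using hβ)
  simp only [add_zero] at h1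
  refine h1.congr' ?_
  filter_upwards [hN.eventually_gt_atTop 0] with i hi
  have : (N i : ℝ) ≠ 0 := by exact_mod_cast hi.ne'
  simp only [Function.comp, Pi.div_apply]
  rw [← add_div, ← add_div, div_div_div_cancel_right₀ this]

end Pool.Agent.H318Z.CF
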