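import Pool.Agent.H318Z.CFB

set_option autoImplicit false

namespace Pool.Agent.H318Z.CF

open Filter Topology Finset

abbrev ι := ℕ ⊕ ℕ ⊕ ℕ

def w : ι → List ℕ
  | .inl m => [1, 2 * m + 3, 2 * m + 3]
  | .inr (.inl m) => [1, 2 * m + 2]
  | .inr (.inr m) => [2 * m + 2, 2 * m + 2]

def w' : ι → List ℕ
  | .inl m => [2, m + 1, 1, 1, m + 1]
  | .inr (.inl m) => [2, m + 1]
  | .inr (.inr m) => [4 * m + 4, m + 1]

lemma dbl (j : ι) (t : ℝ) (ht : 1 ≤ t) : ev (w' j) (2 * t) = 2 * ev (w j) t := by
  have ht0 : 0 < t := by linarith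
  rcases j with m | m | m <;> simp only [w, w', ev] <;> push_cast <;>
    have : (0 : ℝ) ≤ m := Nat.cast_nonneg m
  all_goals (field_simp; try ring)

lemma w_pos (j : ι) : ∀ a ∈ w j, 1 ≤ a := by
  rcases j with m | m | m <;> simp [w]
lemma w'_pos (j : ι) : ∀ a ∈ w' j, 1 ≤ a := by
  rcases j with m | m | m <;> simp [w']
lemma w_ne (j : ι) : w j ≠ [] := by rcases j with m | m | m <;> simp [w]
lemma w'_ne (j : ι) : w' j ≠ [] := by rcases j with m | m | m <;> simp [w']
lemma w_len (j : ι) : (w j).length ≤ 3 := by rcases j with m | m | m <;> simp [w]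
lemma w'_len (j : ι) : (w' j).length ≤ 5 := by rcases j with m | m | m <;> simp [w']
lemma len_le (j : ι) : 3 * (w' j).length ≤ 5 * (w j).length := by
  rcases j with m | m | m <;> simp [w, w']
lemma cnt_le (j : ι) : (w j).count 1 ≤ (w' j).count 2 := by
  rcases j with m | m | m <;> simp [w, w', List.count_cons]

noncomputable def p (k : ℕ) : ℝ := Real.logb 2 (1 + 1 / ((k : ℝ) * ((k : ℝ) + 2)))

lemma p_nonneg (k : ℕ) : 0 ≤ p k :=
  Real.logb_nonneg (by norm_num) (le_add_of_nonneg_right (by positivity))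

lemma p_sum (n : ℕ) : ∑ k ∈ range n, p (k + 2) = Real.logb 2 (3 / 2 * ((n + 2) / (n + 3))) := by
  induction n with
  | zero => norm_num
  | succ n ih =>
    rw [sum_range_succ, ih, p, ← Real.logb_mul (by positivity) (by positivity)]
    congr 1
    push_cast
    field_simp
    ring

lemma p_hasSum : HasSum (fun k => p (k + 2)) (1 - p 1) := by
  rw [hasSum_iff_tendsto_nat_of_nonneg fun k => p_nonneg _]
  simp only [p_sum]
  have h1 : Tendsto (fun n : ℕ => ((n : ℝ) + 2) / (n + 3)) atTop (𝓝 1) := by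
    have := tendsto_add_mul_div_add_mul_atTop_nhds (𝕜 := ℝ) 2 3 1 (d := 1) one_ne_zero
    simpa [add_comm] using this
  have h2 := (h1.const_mul (3 / 2 : ℝ)).logb (b := 2) (by norm_num)
  have h3 : Real.logb 2 (3 / 2 * 1) = 1 - p 1 := by
    rw [eq_sub_iff_add_eq, p, ← Real.logb_mul (by norm_num) (by norm_num)]
    norm_num
  rwa [h3] at h2

lemma exists_EO : ∃ E O : ℝ, HasSum (fun m => p (2 * m + 2)) E ∧ HasSum (fun m => p (2 * m + 3)) O ∧
    E + O = 1 - p 1 := by
  have hE : Summable fun m => p (2 * m + 2) :=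
    p_hasSum.summable.comp_injective (i := fun m => 2 * m) fun a b h => by simpa using h
  have hO : Summable fun m => p (2 * m + 3) :=
    p_hasSum.summable.comp_injective (i := fun m => 2 * m + 1) fun a b h => by simpa using h
  exact ⟨_, _, hE.hasSum, hO.hasSum,
    (HasSum.even_add_odd (f := fun k => p (k + 2)) hE.hasSum hO.hasSum).unique p_hasSum⟩

lemma p1_ge : 1 ≤ 3 * p 1 := by
  have : 3 * p 1 = Real.logb 2 ((4 / 3) ^ 3) := by
    rw [Real.logb_pow, p]; norm_num
  rw [this, Real.le_logb_iff_rpow_le (by norm_num) (by norm_num)]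
  norm_num

lemma p246 : 3 * p 1 ≤ 1 + (p 2 + p 4 + p 6) := by
  have h1 : 3 * p 1 = Real.logb 2 ((4 / 3) ^ 3) := by
    rw [Real.logb_pow, p]; norm_num
  have h2 : 1 + (p 2 + p 4 + p 6) = Real.logb 2 (2 * (9 / 8 * (25 / 24) * (49 / 48))) := by
    rw [Real.logb_mul (by norm_num) (by norm_num), Real.logb_mul (by norm_num) (by norm_num),
      Real.logb_mul (by norm_num) (by norm_num), p, p, p]
    norm_num
  rw [h1, h2]
  exact Real.logb_le_logb_of_le (by norm_num) (by norm_num) (by norm_num)

lemma p21 : 5 * p 2 < 3 * p 1 := by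
  have h1 : 3 * p 1 = Real.logb 2 ((4 / 3) ^ 3) := by
    rw [Real.logb_pow, p]; norm_num
  have h2 : 5 * p 2 = Real.logb 2 ((9 / 8) ^ 5) := by
    rw [Real.logb_pow, p]; norm_num
  rw [h1, h2]
  exact Real.logb_lt_logb (by norm_num) (by norm_num) (by norm_num)

lemma exists_weights : ∃ (q : ι → ℝ) (Z : ℝ), (∀ j, 0 ≤ q j) ∧ 0 < Z ∧ HasSum q Z ∧
    HasSum (fun j => q j * (w j).length) 1 ∧
    ∀ k, HasSum (fun j => q j * (w j).count (k + 1)) (p (k + 1)) := by
  obtain ⟨E, O, hE, hO, hEO⟩ := exists_EO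
  have hE3 : p 2 + p 4 + p 6 ≤ E := by
    have := sum_le_hasSum (range 3) (fun m _ => p_nonneg _) hE
    simpa [sum_range_succ] using this
  have hO0 : 0 ≤ O := hO.nonneg fun m => p_nonneg _
  have h1 := p1_ge
  have h2 := p246
  have hp2 : 0 < p 2 := Real.logb_pos (by norm_num) (by norm_num)
  have hE0 : 0 < E := by linarith [p_nonneg 4, p_nonneg 6]
  set θ := (p 1 - O / 2) / E with hθ
  have hθE : θ * E = p 1 - O / 2 := div_mul_cancel₀ _ hE0.ne'
  have hθ0 : 0 ≤ θ := div_nonneg (by linarith) hE0.le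
  have hθ1 : θ ≤ 1 := by rw [hθ, div_le_one hE0]; linarith
  let q : ι → ℝ := fun j => match j with
    | .inl m => 1 / 2 * p (2 * m + 3)
    | .inr (.inl m) => θ * p (2 * m + 2)
    | .inr (.inr m) => (1 - θ) / 2 * p (2 * m + 2)
  have gen : ∀ (g : ι → ℝ) (a b c : ℝ), HasSum (fun m => g (.inl m)) a →
      HasSum (fun m => g (.inr (.inl m))) b → HasSum (fun m => g (.inr (.inr m))) c →
      HasSum g (a + (b + c)) := fun g a b c ha hb hc =>
    HasSum.sum (f := g) ha (HasSum.sum (f := g ∘ Sum.inr) hb hc)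
  refine ⟨q, 1 / 2 * O + (θ * E + (1 - θ) / 2 * E), fun j => ?_, by nlinarith,
    gen q _ _ _ (hO.mul_left _) (hE.mul_left _) (hE.mul_left _), ?_, fun k => ?_⟩
  · rcases j with m | m | m <;> simp only [q] <;> apply mul_nonneg _ (p_nonneg _) <;> linarith
  · have := gen (fun j => q j * (w j).length) _ _ _
      ((hO.mul_left (1 / 2)).mul_right ((3 : ℕ) : ℝ))
      ((hE.mul_left θ).mul_right ((2 : ℕ) : ℝ))
      ((hE.mul_left ((1 - θ) / 2)).mul_right ((2 : ℕ) : ℝ))
    convert this using 1
    push_cast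
    linarith
  · rcases Nat.eq_zero_or_pos k with rfl | hk
    · have := gen (fun j => q j * (w j).count (0 + 1)) (1 / 2 * O) (θ * E) 0
        (by simpa [q, w, List.count_cons] using hO.mul_left (1 / 2 : ℝ))
        (by simpa [q, w, List.count_cons] using hE.mul_left θ)
        (by simp [q, w, List.count_cons])
      convert this using 1
      simp only [zero_add]
      linarith
    · rcases Nat.even_or_odd' k with ⟨m0, rfl | rfl⟩
      · obtain ⟨m1, rfl⟩ : ∃ m1, m0 = m1 + 1 := ⟨m0 - 1, by omega⟩
        have := gen (fun j => q j * (w j).count (2 * (m1 + 1) + 1)) (p (2 * m1 + 3)) 0 0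
          (by
            have := hasSum_single (f := fun m => q (.inl m) * (w (.inl m)).count (2 * (m1 + 1) + 1))
              m1 (fun m hm => by
                have : ¬ (2 * m + 3 = 2 * (m1 + 1) + 1) := by omega
                simp [w, List.count_cons, this])
            convert this using 1
            have e : 2 * m1 + 3 = 2 * (m1 + 1) + 1 := by ring
            simp [q, w, List.count_cons, e]
            ring)
          (by
            have : ∀ m, ¬ (2 * m + 2 = 2 * (m1 + 1) + 1) := by omega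
            simp [w, List.count_cons, this])
          (by
            have : ∀ m, ¬ (2 * m + 2 = 2 * (m1 + 1) + 1) := by omega
            simp [w, List.count_cons, this])
        rw [add_zero, add_zero] at this
        exact this
      · have := gen (fun j => q j * (w j).count (2 * m0 + 1 + 1)) 0 (θ * p (2 * m0 + 2))
          ((1 - θ) * p (2 * m0 + 2))
          (by
            have : ∀ m, ¬ (2 * m + 3 = 2 * m0 + 1 + 1) := by omega
            simp [w, List.count_cons, this])
          (by
            have := hasSum_single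
              (f := fun m => q (.inr (.inl m)) * (w (.inr (.inl m))).count (2 * m0 + 1 + 1))
              m0 (fun m hm => by
                simp [w, List.count_cons, hm])
            convert this using 1
            simp [q, w, List.count_cons])
          (by
            have := hasSum_single
              (f := fun m => q (.inr (.inr m)) * (w (.inr (.inr m))).count (2 * m0 + 1 + 1))
              m0 (fun m hm => by
                simp [w, List.count_cons, hm])
            convert this using 1
            simp [q, w]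
            ring)
        convert this using 1
        ring

theorem main : ∃ x : ℝ, (∀ k : ℕ, 1 ≤ k → Tendsto (fun n : ℕ =>
      (((range n).filter (fun i => (GenContFract.of x).partDens.get? i = some (k : ℝ))).card : ℝ)
        / (n : ℝ)) atTop (𝓝 (p k))) ∧
    ¬ Tendsto (fun n : ℕ =>
      (((range n).filter (fun i => (GenContFract.of (x / 2)).partDens.get? i
        = some ((2 : ℕ) : ℝ))).card : ℝ) / (n : ℝ)) atTop (𝓝 (p 2)) := by
  obtain ⟨q, Z, hq, hZ, hs, hlen, hcnt⟩ := exists_weights
  obtain ⟨J, hJ⟩ := exists_seq (fun j => Z⁻¹ * q j) (fun j => mul_nonneg (inv_pos.2 hZ).le (hq j))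
    (by simpa [inv_mul_cancel₀ hZ.ne'] using hs.mul_left Z⁻¹)
    (fun k j => match k with
      | 0 => (w j).length
      | k + 1 => (w j).count (k + 1)) 3
    (fun k j => by
      have h1 := w_len j
      rcases k with _ | k
      · simp only [Nat.abs_cast]; exact_mod_cast h1
      · simp only [Nat.abs_cast]; exact_mod_cast List.count_le_length.trans h1)
    (fun k => match k with
      | 0 => Z⁻¹ * 1
      | k + 1 => Z⁻¹ * p (k + 1))
    (fun k => by
      rcases k with _ | k
      · simpa only [mul_assoc] using hlen.mul_left Z⁻¹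
      · simpa only [mul_assoc] using (hcnt k).mul_left Z⁻¹)
  have hB := hJ 0
  have hA := fun k => hJ (k + 1)
  simp only at hA hB
  have hZ1 : Z⁻¹ * 1 ≠ 0 := by simpa using hZ.ne'
  obtain ⟨T, hT⟩ := exists_tails (fun n => w (J n)) (fun n => w_pos _) (fun n => w_ne _)
  refine ⟨(T 0)⁻¹, fun k hk => ?_, fun h => ?_⟩
  · obtain ⟨k, rfl⟩ : ∃ k', k = k' + 1 := ⟨k - 1, by omega⟩
    simp only [card_eq_cnt (fun n => w (J n)) (fun n => w_pos _) (fun n => w_ne _) T hT]
    obtain ⟨N, hN, h⟩ := bounds (fun n => w (J n)) (fun n => w_ne _) 3 (fun n => w_len _)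
    choose j hj hj' using fun i => (h i).1
    choose e he he' using fun i => (h i).2 (k + 1)
    have := lim_ratio N hN _ _ _ _ hZ1 (hA k) hB (fun i => e i) (fun i => j i) 3
      (fun i => by simp only [Nat.abs_cast]; exact_mod_cast he i)
      (fun i => by simp only [Nat.abs_cast]; exact_mod_cast hj i)
    rw [mul_div_mul_left _ _ (inv_pos.2 hZ).ne', div_one] at this
    refine this.congr fun i => ?_
    have e1 : (i : ℝ) = ∑ m ∈ range (N i), ((w (J m)).length : ℝ) + j i := by
      exact_mod_cast hj' i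
    rw [he' i, ← e1]
    push_cast
    rfl
  · have hU : ∀ n, 1 ≤ 2 * T n ∧ 2 * T n = ev (w' (J n)) (2 * T (n + 1)) := fun n =>
      ⟨by linarith [(hT n).1], by rw [dbl _ _ (hT (n + 1)).1, ← (hT n).2]⟩
    have e0 : (T 0)⁻¹ / 2 = (2 * T 0)⁻¹ := by rw [mul_inv]; ring
    rw [e0] at h
    simp only [card_eq_cnt (fun n => w' (J n)) (fun n => w'_pos _) (fun n => w'_ne _)
      (fun n => 2 * T n) hU] at h
    obtain ⟨N, hN, hb⟩ := bounds (fun n => w' (J n)) (fun n => w'_ne _) 5 (fun n => w'_len _)
    have hB' := hB.const_mul (5 / 3 : ℝ)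
    simp only [← mul_div_assoc] at hB'
    have h2 := lim_ratio N hN _ _ _ _ (by simpa using hZ.ne') (hA 0) hB' (fun _ => 0) (fun _ => 5) 5
      (fun i => by norm_num) (fun i => by norm_num)
    have h3 : Z⁻¹ * p (0 + 1) / (5 / 3 * (Z⁻¹ * 1)) ≤ p 2 := by
      refine le_of_tendsto_of_tendsto h2 h ?_
      filter_upwards [eventually_gt_atTop 0] with i hi
      obtain ⟨⟨j, hj, hj'⟩, hc⟩ := hb i
      obtain ⟨e, -, he'⟩ := hc 2
      have h4 : ∑ m ∈ range (N i), (w (J m)).count (0 + 1) ≤ cnt (fun n => w' (J n)) 2 i := by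
        rw [he']
        exact (sum_le_sum fun m _ => cnt_le (J m)).trans (Nat.le_add_right _ _)
      have h5 : 3 * ∑ m ∈ range (N i), (w' (J m)).length
          ≤ 5 * ∑ m ∈ range (N i), (w (J m)).length := by
        rw [mul_sum, mul_sum]
        exact sum_le_sum fun m _ => len_le (J m)
      have h6 : 3 * i ≤ 5 * ∑ m ∈ range (N i), (w (J m)).length + 15 := by omega
      have h7 : (3 : ℝ) * i ≤ 5 * ∑ m ∈ range (N i), ((w (J m)).length : ℝ) + 15 := by
        exact_mod_cast h6
      refine div_le_div₀ (Nat.cast_nonneg _) ?_ (by exact_mod_cast hi) (by linarith)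
      rw [add_zero]
      exact_mod_cast h4
    have h8 : Z⁻¹ * p (0 + 1) / (5 / 3 * (Z⁻¹ * 1)) = 3 / 5 * p 1 := by
      field_simp
    have := p21
    linarith

end Pool.Agent.H318Z.CF
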