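import Mathlib

set_option autoImplicit false

/-!
A linear form in logarithms with polynomial coefficients which vanishes to order nine at infinity.
The numbers 598, 161, 442 come from the rational point (c, d) = (7/26, 17/23) of the genus one
curve 6 c^2 d^2 - 2 (c^2 + d^2) + 1 = 0.
-/

namespace Pool.Agent.H318Z.LW

open Real Finset

/-- Taylor expansion of the logarithm to order ten. -/
theorem log_taylor (t : ℝ) (ht : |t| ≤ 1 / 2) :
    |log (1 + t) - (t - t ^ 2 / 2 + t ^ 3 / 3 - t ^ 4 / 4 + t ^ 5 / 5 - t ^ 6 / 6 + t ^ 7 / 7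
      - t ^ 8 / 8 + t ^ 9 / 9 - t ^ 10 / 10)| ≤ 2 * |t| ^ 11 := by
  have h1 : |(-t)| < 1 := by rw [abs_neg]; linarith
  have h := Real.abs_log_sub_add_sum_range_le h1 10
  have e1 : (∑ i ∈ range 10, (-t) ^ (i + 1) / ((i : ℝ) + 1)) + log (1 - -t) =
      log (1 + t) - (t - t ^ 2 / 2 + t ^ 3 / 3 - t ^ 4 / 4 + t ^ 5 / 5 - t ^ 6 / 6 + t ^ 7 / 7
      - t ^ 8 / 8 + t ^ 9 / 9 - t ^ 10 / 10) := by
    simp only [sum_range_succ, sum_range_zero, sub_neg_eq_add]
    push_cast
    ring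
  rw [e1, abs_neg] at h
  refine h.trans ?_
  have h2 : (0 : ℝ) < 1 - |t| := by linarith
  rw [div_le_iff₀ h2]
  have h3 : 0 ≤ |t| ^ 11 := by positivity
  have h4 : |t| ^ (10 + 1) = |t| ^ 11 := by norm_num
  rw [h4]
  nlinarith

/-- The linear form. -/
noncomputable def lam (X : ℝ) : ℝ :=
  (6068472268320 * X + 3354992875262301) * log (X + 598)
  + (6068472268320 * X - 3354992875262301) * log (X - 598)
  - 2 * 6068472268320 * X * log X
  - 1633027644984320 * (log (X + 161) - log (X - 161))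
  - 1489396629059339 * (log (X + 442) - log (X - 442))

theorem log_shift (X a : ℝ) (hX : 10 ^ 8 ≤ X) (ha : |a| ≤ 598) :
    ∃ r : ℝ, |r| ≤ 2 * 598 ^ 11 / X ^ 11 ∧
      log (X + a) = log X + (a / X - (a / X) ^ 2 / 2 + (a / X) ^ 3 / 3 - (a / X) ^ 4 / 4
        + (a / X) ^ 5 / 5 - (a / X) ^ 6 / 6 + (a / X) ^ 7 / 7
        - (a / X) ^ 8 / 8 + (a / X) ^ 9 / 9 - (a / X) ^ 10 / 10) + r := by
  have hX0 : 0 < X := by linarith [show (0 : ℝ) < 10 ^ 8 by positivity]
  have ht : |a / X| ≤ 598 / X := by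
    rw [abs_div, abs_of_pos hX0]
    exact div_le_div_of_nonneg_right ha hX0.le
  have ht2 : 598 / X ≤ 1 / 2 := by
    rw [div_le_iff₀ hX0]
    linarith [show (10 : ℝ) ^ 8 = 100000000 by norm_num]
  have h := log_taylor (a / X) (ht.trans ht2)
  have hpos : 0 < 1 + a / X := by
    have := (abs_le.mp (ht.trans ht2)).1
    linarith
  have e : log (X + a) = log X + log (1 + a / X) := by
    rw [← log_mul hX0.ne' hpos.ne']
    congr 1
    field_simp
  refine ⟨_, h.trans ?_, by rw [e]; ring⟩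
  have : |a / X| ^ 11 ≤ (598 / X) ^ 11 := pow_le_pow_left₀ (abs_nonneg _) ht 11
  rw [div_pow] at this
  rw [mul_div_assoc]
  linarith

theorem lam_est (X : ℝ) (hX : 10 ^ 8 ≤ X) :
    |lam X + 19847544087182524370740301906285254656 / X ^ 9| ≤ 4 * 10 ^ 36 / X ^ 9 := by
  have hX0 : 0 < X := by linarith [show (0 : ℝ) < 10 ^ 8 by positivity]
  have hX' : (100000000 : ℝ) ≤ X := by linarith [show (10 : ℝ) ^ 8 = 100000000 by norm_num]
  obtain ⟨r1, h1, e1⟩ := log_shift X 598 hX (by norm_num)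
  obtain ⟨r2, h2, e2⟩ := log_shift X (-598) hX (by norm_num)
  obtain ⟨r3, h3, e3⟩ := log_shift X 161 hX (by norm_num)
  obtain ⟨r4, h4, e4⟩ := log_shift X (-161) hX (by norm_num)
  obtain ⟨r5, h5, e5⟩ := log_shift X 442 hX (by norm_num)
  obtain ⟨r6, h6, e6⟩ := log_shift X (-442) hX (by norm_num)
  rw [← sub_eq_add_neg] at e2 e4 e6
  have key : lam X + 19847544087182524370740301906285254656 / X ^ 9 =
      (6068472268320 * X + 3354992875262301) * r1 + (6068472268320 * X - 3354992875262301) * r2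
      - 1633027644984320 * (r3 - r4) - 1489396629059339 * (r5 - r6) := by
    unfold lam
    rw [e1, e2, e3, e4, e5, e6]
    field_simp
    ring
  rw [key]
  set R : ℝ := 2 * 598 ^ 11 / X ^ 11 with hR
  have hR0 : 0 ≤ R := by positivity
  have b1 : |(6068472268320 * X + 3354992875262301) * r1| ≤ (2 * 6068472268320 * X) * R := by
    rw [abs_mul]
    refine mul_le_mul ?_ h1 (abs_nonneg _) (by positivity)
    rw [abs_le]; constructor <;> linarith
  have b2 : |(6068472268320 * X - 3354992875262301) * r2| ≤ (2 * 6068472268320 * X) * R := by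
    rw [abs_mul]
    refine mul_le_mul ?_ h2 (abs_nonneg _) (by positivity)
    rw [abs_le]; constructor <;> linarith
  have b3 : |1633027644984320 * (r3 - r4)| ≤ (6068472268320 * X) * (2 * R) := by
    rw [abs_mul]
    refine mul_le_mul ?_ ((abs_sub _ _).trans (by linarith)) (abs_nonneg _) (by positivity)
    rw [abs_le]; constructor <;> linarith
  have b4 : |1489396629059339 * (r5 - r6)| ≤ (6068472268320 * X) * (2 * R) := by
    rw [abs_mul]
    refine mul_le_mul ?_ ((abs_sub _ _).trans (by linarith)) (abs_nonneg _) (by positivity)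
    rw [abs_le]; constructor <;> linarith
  have b5 : 8 * 6068472268320 * X * R ≤ 4 * 10 ^ 36 / X ^ 9 := by
    rw [hR, le_div_iff₀ (by positivity)]
    have : 8 * 6068472268320 * X * (2 * 598 ^ 11 / X ^ 11) * X ^ 9
        = 16 * 6068472268320 * 598 ^ 11 / X := by
      field_simp
      ring
    rw [this, div_le_iff₀ hX0]
    have hc : (16 * 6068472268320 * 598 ^ 11 : ℝ) ≤ 4 * 10 ^ 36 * 100000000 := by norm_num
    have hd : (4 * 10 ^ 36 * 100000000 : ℝ) ≤ 4 * 10 ^ 36 * X :=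
      mul_le_mul_of_nonneg_left hX' (by positivity)
    exact hc.trans hd
  refine le_trans ?_ b5
  refine (abs_sub _ _).trans ?_
  refine (add_le_add ((abs_sub _ _).trans (add_le_add ((abs_add_le _ _).trans (add_le_add b1 b2)) b3))
    b4).trans (le_of_eq ?_)
  ring

theorem lam_ne (X : ℝ) (hX : 10 ^ 8 ≤ X) : lam X ≠ 0 := by
  have hX0 : 0 < X := by linarith [show (0 : ℝ) < 10 ^ 8 by positivity]
  intro h
  have h1 := lam_est X hX
  rw [h, zero_add, abs_of_pos (by positivity), div_le_div_iff_of_pos_right (by positivity)] at h1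
  norm_num at h1

theorem lam_le (X : ℝ) (hX : 10 ^ 8 ≤ X) : |lam X| ≤ 3 * 10 ^ 37 / X ^ 9 := by
  have hX0 : 0 < X := by linarith [show (0 : ℝ) < 10 ^ 8 by positivity]
  have h1 := abs_le.mp (lam_est X hX)
  have hp : 0 < 1 / X ^ 9 := by positivity
  have e1 : (19847544087182524370740301906285254656 : ℝ) / X ^ 9
      = 19847544087182524370740301906285254656 * (1 / X ^ 9) := by ring
  have e2 : (4 * 10 ^ 36 : ℝ) / X ^ 9 = 4 * 10 ^ 36 * (1 / X ^ 9) := by ring
  have e3 : (3 * 10 ^ 37 : ℝ) / X ^ 9 = 3 * 10 ^ 37 * (1 / X ^ 9) := by ring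
  rw [e1, e2] at h1
  rw [e3, abs_le]
  obtain ⟨h2, h3⟩ := h1
  generalize 1 / X ^ 9 = w at *
  constructor <;> linarith

/-- a bound for real powers -/
theorem rpow_bound (H K t : ℝ) (N : ℕ) (hN : 1 ≤ N) (hH : 0 ≤ H) (hK : 1 ≤ K) (ht : 0 < t)
    (h : H ≤ K * t ^ N) : H ^ (1 + 1 / (N : ℝ)) ≤ K ^ 2 * t ^ (N + 1) := by
  have hN0 : (0 : ℝ) < N := by exact_mod_cast hN
  have hN1 : (1 : ℝ) ≤ N := by exact_mod_cast hN
  have he : (0 : ℝ) ≤ 1 + 1 / (N : ℝ) := by positivity
  refine (Real.rpow_le_rpow hH h he).trans ?_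
  rw [Real.mul_rpow (by linarith) (by positivity)]
  refine mul_le_mul ?_ (le_of_eq ?_) (by positivity) (by positivity)
  · rw [← Real.rpow_natCast]
    refine Real.rpow_le_rpow_of_exponent_le hK ?_
    have : 1 / (N : ℝ) ≤ 1 := by rw [div_le_iff₀ hN0]; linarith
    push_cast
    linarith
  · rw [← Real.rpow_natCast, ← Real.rpow_mul ht.le, ← Real.rpow_natCast]
    congr 1
    push_cast
    field_simp

end Pool.Agent.H318Z.LW
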