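import Mathlib
import Pool.Agent.H318Z.LW

set_option autoImplicit false

/-!
The integer family.  With `X = t ^ 3` the seven integers `X ± 598`, `t`, `X ± 161`, `X ± 442` and
suitable exponents give a product of powers which is too close to one.
-/

namespace Pool.Agent.H318Z.LW

open Real Finset

/-- the bases -/
def ia (t : ℕ) : Fin 7 → ℕ :=
  ![t ^ 3 + 598, t ^ 3 - 598, t, t ^ 3 + 161, t ^ 3 - 161, t ^ 3 + 442, t ^ 3 - 442]

/-- the exponents -/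
def ib (t : ℕ) : Fin 7 → ℤ :=
  ![6068472268320 * (t : ℤ) ^ 3 + 3354992875262301, 6068472268320 * (t : ℤ) ^ 3 - 3354992875262301,
    -(6 * 6068472268320 * (t : ℤ) ^ 3), -1633027644984320, 1633027644984320,
    -1489396629059339, 1489396629059339]

theorem cube_ge (t : ℕ) (ht : 1000 ≤ t) : 1000000000 ≤ t ^ 3 := by
  calc 1000000000 = 1000 ^ 3 := by norm_num
    _ ≤ t ^ 3 := Nat.pow_le_pow_left ht 3

theorem ia_pos (t : ℕ) (ht : 1000 ≤ t) (i : Fin 7) : 0 < ia t i := by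
  have h := cube_ge t ht
  fin_cases i <;> simp [ia] <;> omega

theorem ib_ne (t : ℕ) (ht : 1000 ≤ t) (i : Fin 7) : ib t i ≠ 0 := by
  have h : (1000000000 : ℤ) ≤ (t : ℤ) ^ 3 := by exact_mod_cast cube_ge t ht
  fin_cases i <;> simp only [ib] <;> simp <;> omega

theorem prod_eq (t : ℕ) (ht : 1000 ≤ t) :
    ∏ i, ((ia t i : ℕ) : ℝ) ^ (ib t i) = exp (lam ((t : ℝ) ^ 3)) := by
  have h := cube_ge t ht
  have hpos : ∀ i, (0 : ℝ) < ((ia t i : ℕ) : ℝ) := fun i => by exact_mod_cast ia_pos t ht i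
  have h1 : ∀ i, ((ia t i : ℕ) : ℝ) ^ (ib t i) = exp ((ib t i : ℝ) * log ((ia t i : ℕ) : ℝ)) := by
    intro i
    rw [← Real.log_zpow, Real.exp_log (zpow_pos (hpos i) _)]
  rw [Finset.prod_congr rfl fun i _ => h1 i, ← Real.exp_sum]
  congr 1
  have c1 : ((t ^ 3 - 598 : ℕ) : ℝ) = (t : ℝ) ^ 3 - 598 := by
    rw [Nat.cast_sub (by omega)]; push_cast; ring
  have c2 : ((t ^ 3 - 161 : ℕ) : ℝ) = (t : ℝ) ^ 3 - 161 := by
    rw [Nat.cast_sub (by omega)]; push_cast; ring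
  have c3 : ((t ^ 3 - 442 : ℕ) : ℝ) = (t : ℝ) ^ 3 - 442 := by
    rw [Nat.cast_sub (by omega)]; push_cast; ring
  simp only [Fin.sum_univ_succ, Fin.sum_univ_zero, ia, ib, Matrix.cons_val_zero,
    Matrix.cons_val_succ, c1, c2, c3, lam, Real.log_pow]
  push_cast
  ring

theorem height_le (t : ℕ) (ht : 1000 ≤ t) :
    (∏ i, |((ib t i : ℤ) : ℝ)|) * (∏ i, ((ia t i : ℕ) : ℝ)) ≤ 10 ^ 110 * (t : ℝ) ^ 28 := by
  have h := cube_ge t ht
  have h' : (1000000000 : ℝ) ≤ (t : ℝ) ^ 3 := by exact_mod_cast h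
  have ht0 : (0 : ℝ) < t := by exact_mod_cast (by omega : 0 < t)
  have hb : ∀ i, |((ib t i : ℤ) : ℝ)| ≤
      (![10 ^ 14 * (t : ℝ) ^ 3, 10 ^ 14 * (t : ℝ) ^ 3, 10 ^ 14 * (t : ℝ) ^ 3, 10 ^ 16, 10 ^ 16,
        10 ^ 16, 10 ^ 16] : Fin 7 → ℝ) i := by
    intro i
    rw [abs_le]
    fin_cases i <;> simp only [ib] <;> simp <;> constructor <;> linarith
  have ha : ∀ i, ((ia t i : ℕ) : ℝ) ≤
      (![2 * (t : ℝ) ^ 3, 2 * (t : ℝ) ^ 3, (t : ℝ), 2 * (t : ℝ) ^ 3, 2 * (t : ℝ) ^ 3,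
        2 * (t : ℝ) ^ 3, 2 * (t : ℝ) ^ 3] : Fin 7 → ℝ) i := by
    intro i
    have e : ∀ k : ℕ, ((t ^ 3 - k : ℕ) : ℝ) ≤ 2 * (t : ℝ) ^ 3 := by
      intro k
      have : ((t ^ 3 - k : ℕ) : ℝ) ≤ ((t ^ 3 : ℕ) : ℝ) := by exact_mod_cast Nat.sub_le _ _
      push_cast at this
      linarith
    fin_cases i
    · simp only [ia]; simp; linarith
    · exact e 598
    · simp [ia]
    · simp only [ia]; simp; linarith
    · exact e 161
    · simp only [ia]; simp; linarith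
    · exact e 442
  have p1 := Finset.prod_le_prod (s := univ) (fun i _ => abs_nonneg ((ib t i : ℤ) : ℝ))
    (fun i _ => hb i)
  have p2 := Finset.prod_le_prod (s := univ) (fun i _ => Nat.cast_nonneg (α := ℝ) (ia t i))
    (fun i _ => ha i)
  refine (mul_le_mul p1 p2 (by positivity) (le_trans (by positivity) p1)).trans ?_
  simp only [Fin.prod_univ_succ, Fin.prod_univ_zero, Matrix.cons_val_zero, Matrix.cons_val_succ]
  have : (0 : ℝ) ≤ (t : ℝ) ^ 28 := by positivity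
  nlinarith

theorem sup_ge (t : ℕ) :
    (t : ℝ) ^ 3 ≤ ((univ.sup fun i => (ib t i).natAbs : ℕ) : ℝ) := by
  have h1 : (ib t 2).natAbs ≤ univ.sup fun i => (ib t i).natAbs :=
    Finset.le_sup (f := fun i => (ib t i).natAbs) (mem_univ 2)
  have h2 : t ^ 3 ≤ (ib t 2).natAbs := by
    have : ib t 2 = -(6 * 6068472268320 * (t : ℤ) ^ 3) := rfl
    rw [this]
    have e : ((t ^ 3 : ℕ) : ℤ) = (t : ℤ) ^ 3 := by push_cast; ring
    omega
  exact_mod_cast h2.trans h1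

/-- The family violates the inequality with `ε = 1 / 28` and any positive constant. -/
theorem int_family (c : ℝ) (hc : 0 < c) : ∃ t : ℕ, 1000 ≤ t ∧
    (∏ i, ((ia t i : ℕ) : ℝ) ^ (ib t i)) ≠ 1 ∧
    |(∏ i, ((ia t i : ℕ) : ℝ) ^ (ib t i)) - 1| <
      c * ((univ.sup fun i => (ib t i).natAbs : ℕ) : ℝ) /
        ((∏ i, |((ib t i : ℤ) : ℝ)|) * (∏ i, ((ia t i : ℕ) : ℝ))) ^ (1 + 1 / 28 : ℝ) := by
  obtain ⟨t, ht⟩ := exists_nat_gt (max 1000 (6 * 10 ^ 37 * (10 ^ 110) ^ 2 / c))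
  have ht1 : (1000 : ℝ) < t := lt_of_le_of_lt (le_max_left _ _) ht
  have ht2 : 6 * 10 ^ 37 * (10 ^ 110) ^ 2 / c < t := lt_of_le_of_lt (le_max_right _ _) ht
  have ht3 : 1000 ≤ t := by exact_mod_cast ht1.le
  have ht0 : (0 : ℝ) < t := by linarith
  have h' : (1000000000 : ℝ) ≤ (t : ℝ) ^ 3 := by exact_mod_cast cube_ge t ht3
  have hX : (10 : ℝ) ^ 8 ≤ (t : ℝ) ^ 3 := by
    linarith [show (10 : ℝ) ^ 8 = 100000000 by norm_num]
  refine ⟨t, ht3, ?_, ?_⟩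
  · rw [prod_eq t ht3]
    intro h
    exact lam_ne _ hX (by simpa using h)
  · rw [prod_eq t ht3]
    have l1 := lam_le _ hX
    have l2 : 3 * 10 ^ 37 / ((t : ℝ) ^ 3) ^ 9 ≤ 1 := by
      rw [div_le_one (by positivity)]
      calc (3 * 10 ^ 37 : ℝ) ≤ 1000000000 ^ 9 := by norm_num
        _ ≤ ((t : ℝ) ^ 3) ^ 9 := pow_le_pow_left₀ (by norm_num) h' 9
    have l3 := Real.abs_exp_sub_one_le (l1.trans l2)
    have hH0 : 0 < (∏ i, |((ib t i : ℤ) : ℝ)|) * (∏ i, ((ia t i : ℕ) : ℝ)) := by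
      refine mul_pos (Finset.prod_pos fun i _ => abs_pos.mpr ?_) (Finset.prod_pos fun i _ => ?_)
      · exact_mod_cast ib_ne t ht3 i
      · exact_mod_cast ia_pos t ht3 i
    have l4 := rpow_bound _ (10 ^ 110) t 28 (by norm_num) hH0.le (by norm_num) ht0
      (height_le t ht3)
    have l5 := sup_ge t
    have e28 : ((28 : ℕ) : ℝ) = 28 := by norm_num
    rw [e28] at l4
    have l6 : c * (t : ℝ) ^ 3 / ((10 ^ 110) ^ 2 * (t : ℝ) ^ (28 + 1)) ≤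
        c * ((univ.sup fun i => (ib t i).natAbs : ℕ) : ℝ) /
        ((∏ i, |((ib t i : ℤ) : ℝ)|) * (∏ i, ((ia t i : ℕ) : ℝ))) ^ (1 + 1 / 28 : ℝ) :=
      div_le_div₀ (by positivity) (mul_le_mul_of_nonneg_left l5 hc.le)
        (Real.rpow_pos_of_pos hH0 _) l4
    refine lt_of_lt_of_le (lt_of_le_of_lt l3 ?_) l6
    refine lt_of_le_of_lt (mul_le_mul_of_nonneg_left l1 (by norm_num)) ?_
    rw [div_lt_iff₀ hc] at ht2
    rw [← mul_div_assoc, div_lt_div_iff₀ (by positivity) (by positivity)]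
    have e1 : (2 * (3 * 10 ^ 37) * ((10 ^ 110) ^ 2 * (t : ℝ) ^ (28 + 1)))
        = (6 * 10 ^ 37 * (10 ^ 110) ^ 2) * (t : ℝ) ^ 29 := by ring
    have e2 : c * (t : ℝ) ^ 3 * ((t : ℝ) ^ 3) ^ 9 = (t * c) * (t : ℝ) ^ 29 := by ring
    rw [e1, e2]
    exact mul_lt_mul_of_pos_right ht2 (by positivity)

end Pool.Agent.H318Z.LW
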