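import Mathlib
import Pool.Agent.H318Z.LW

set_option autoImplicit false

/-!
The rational family.  With `u ^ 2 = 2 v ^ 2 + 1` and `X = 322 u ^ 2 - 161` one has
`(X + 161) / (X - 161) = (u / v) ^ 2 / 2`, so this logarithm is cheap.
-/

namespace Pool.Agent.H318Z.LW

open Real Finset

theorem pell (N : ℕ) : ∃ u v : ℕ, u ^ 2 = 2 * v ^ 2 + 1 ∧ N < u ∧ 0 < v := by
  induction N with
  | zero => exact ⟨3, 2, by norm_num, by norm_num, by norm_num⟩
  | succ n ih =>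
    obtain ⟨u, v, h1, h2, h3⟩ := ih
    refine ⟨3 * u + 4 * v, 2 * u + 3 * v, ?_, by omega, by omega⟩
    nlinarith

theorem height_div (r s : ℕ) (M : ℝ) (hr : 0 < r) (hs : 0 < s) (h1 : (r : ℝ) ≤ M)
    (h2 : (s : ℝ) ≤ M) :
    ((max ((r : ℚ) / (s : ℚ)).num.natAbs ((r : ℚ) / (s : ℚ)).den : ℕ) : ℝ) ≤ M := by
  have e : (r : ℚ) / (s : ℚ) = Rat.divInt (r : ℤ) (s : ℤ) := by
    rw [Rat.divInt_eq_div]; push_cast; rfl
  have hs' : (s : ℤ) ≠ 0 := by exact_mod_cast hs.ne'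
  have a1 : ((r : ℚ) / (s : ℚ)).num.natAbs ≤ r := by
    rw [e]
    have := Int.natAbs_dvd_natAbs.mpr (Rat.num_dvd (r : ℤ) hs')
    exact Nat.le_of_dvd hr (by simpa using this)
  have a2 : ((r : ℚ) / (s : ℚ)).den ≤ s := by
    rw [e]
    have := Rat.den_dvd (r : ℤ) (s : ℤ)
    exact Nat.le_of_dvd hs (by exact_mod_cast this)
  rw [Nat.cast_max]
  exact max_le (le_trans (by exact_mod_cast a1) h1) (le_trans (by exact_mod_cast a2) h2)

/-- numerators -/
def rn (X u : ℕ) : Fin 5 → ℕ := ![X + 598, X - 598, X + 442, u, 2]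

/-- denominators -/
def rd (X v : ℕ) : Fin 5 → ℕ := ![X, X, X - 442, v, 1]

/-- the rational numbers -/
def ra (X u v : ℕ) (j : Fin 5) : ℚ := (rn X u j : ℚ) / (rd X v j : ℚ)

/-- the coefficients -/
def rb (X : ℕ) : Fin 5 → ℤ :=
  ![6068472268320 * (X : ℤ) + 3354992875262301, 6068472268320 * (X : ℤ) - 3354992875262301,
    -1489396629059339, -(2 * 1633027644984320), 1633027644984320]

theorem rn_pos (X u : ℕ) (hX : 1000 ≤ X) (hu : 0 < u) (j : Fin 5) : 0 < rn X u j := by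
  fin_cases j <;> simp [rn] <;> omega

theorem rd_pos (X v : ℕ) (hX : 1000 ≤ X) (hv : 0 < v) (j : Fin 5) : 0 < rd X v j := by
  fin_cases j <;> simp [rd] <;> omega

theorem ra_pos (X u v : ℕ) (hX : 1000 ≤ X) (hu : 0 < u) (hv : 0 < v) (j : Fin 5) :
    0 < ra X u v j :=
  div_pos (by exact_mod_cast rn_pos X u hX hu j) (by exact_mod_cast rd_pos X v hX hv j)

theorem sum_eq (X u v : ℕ) (hX : 1000 ≤ X) (hu : 0 < u) (hv : 0 < v)
    (h1 : X + 161 = 322 * u ^ 2) (h2 : X = 644 * v ^ 2 + 161) :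
    ∑ j, (rb X j : ℝ) * log (ra X u v j : ℝ) = lam X := by
  have e : ∀ j, log (ra X u v j : ℝ) = log (rn X u j : ℝ) - log (rd X v j : ℝ) := by
    intro j
    unfold ra
    push_cast
    exact Real.log_div (by exact_mod_cast (rn_pos X u hX hu j).ne')
      (by exact_mod_cast (rd_pos X v hX hv j).ne')
  have c1 : ((X - 598 : ℕ) : ℝ) = (X : ℝ) - 598 := by
    rw [Nat.cast_sub (by omega)]; push_cast; ring
  have c3 : ((X - 442 : ℕ) : ℝ) = (X : ℝ) - 442 := by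
    rw [Nat.cast_sub (by omega)]; push_cast; ring
  have hu' : (u : ℝ) ≠ 0 := by exact_mod_cast hu.ne'
  have hv' : (v : ℝ) ≠ 0 := by exact_mod_cast hv.ne'
  have d1 : log ((X : ℝ) + 161) = log 322 + 2 * log u := by
    have : (X : ℝ) + 161 = 322 * (u : ℝ) ^ 2 := by exact_mod_cast h1
    rw [this, Real.log_mul (by norm_num) (pow_ne_zero 2 hu'), Real.log_pow]
    push_cast; ring
  have d2 : log ((X : ℝ) - 161) = log 322 + log 2 + 2 * log v := by
    have h3 : (X : ℝ) = 644 * (v : ℝ) ^ 2 + 161 := by exact_mod_cast h2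
    have : (X : ℝ) - 161 = 322 * 2 * (v : ℝ) ^ 2 := by rw [h3]; ring
    rw [this, Real.log_mul (by norm_num) (pow_ne_zero 2 hv'), Real.log_pow,
      Real.log_mul (by norm_num) (by norm_num)]
    push_cast; ring
  simp only [e, Fin.sum_univ_succ, Fin.sum_univ_zero, rn, rd, rb, Matrix.cons_val_zero,
    Matrix.cons_val_succ, c1, c3, lam, d1, d2]
  push_cast
  rw [Real.log_one]
  ring

theorem rheight_le (X u v : ℕ) (hX : 1000 ≤ X) (hu : 0 < u) (hv : 0 < v) (hvu : v ≤ u)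
    (h1 : X + 161 = 322 * u ^ 2) :
    (∏ j, ((max (rb X j).natAbs 1 : ℕ) : ℝ)) *
      (∏ j, ((max (ra X u v j).num.natAbs (ra X u v j).den : ℕ) : ℝ) ^ 2)
      ≤ 10 ^ 120 * (u : ℝ) ^ 18 := by
  have hX' : (1000 : ℝ) ≤ X := by exact_mod_cast hX
  have hu1 : (1 : ℝ) ≤ u := by exact_mod_cast hu
  have h1' : (X : ℝ) + 161 = 322 * (u : ℝ) ^ 2 := by exact_mod_cast h1
  have hu2 : (1 : ℝ) ≤ (u : ℝ) ^ 2 := one_le_pow₀ hu1
  have hb : ∀ j, ((max (rb X j).natAbs 1 : ℕ) : ℝ) ≤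
      (![10 ^ 17 * (u : ℝ) ^ 2, 10 ^ 17 * (u : ℝ) ^ 2, 10 ^ 16, 10 ^ 16, 10 ^ 16] : Fin 5 → ℝ) j := by
    intro j
    rw [Nat.cast_max, Nat.cast_natAbs, Int.cast_abs, max_le_iff, abs_le]
    fin_cases j <;> simp only [rb] <;> simp <;> refine ⟨⟨?_, ?_⟩, ?_⟩ <;> linarith
  have ha : ∀ j, ((max (ra X u v j).num.natAbs (ra X u v j).den : ℕ) : ℝ) ≤
      (![1000 * (u : ℝ) ^ 2, 1000 * (u : ℝ) ^ 2, 1000 * (u : ℝ) ^ 2, (u : ℝ), 2] : Fin 5 → ℝ) j := by
    intro j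
    have e : ∀ k : ℕ, ((X - k : ℕ) : ℝ) ≤ 1000 * (u : ℝ) ^ 2 := by
      intro k
      have : ((X - k : ℕ) : ℝ) ≤ (X : ℝ) := by exact_mod_cast Nat.sub_le _ _
      linarith
    refine height_div _ _ _ (rn_pos X u hX hu j) (rd_pos X v hX hv j) ?_ ?_
    · fin_cases j
      · simp only [rn]; simp; linarith
      · exact e 598
      · simp only [rn]; simp; linarith
      · simp [rn]
      · simp [rn]
    · fin_cases j
      · simp only [rd]; simp; linarith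
      · simp only [rd]; simp; linarith
      · exact e 442
      · simp only [rd]; simp; exact hvu
      · simp [rd]
  have p1 := Finset.prod_le_prod (s := univ)
    (fun j _ => Nat.cast_nonneg (α := ℝ) (max (rb X j).natAbs 1)) (fun j _ => hb j)
  have p2 := Finset.prod_le_prod (s := univ)
    (fun j _ => sq_nonneg ((max (ra X u v j).num.natAbs (ra X u v j).den : ℕ) : ℝ))
    (fun j _ => pow_le_pow_left₀ (Nat.cast_nonneg _) (ha j) 2)
  refine (mul_le_mul p1 p2 (by positivity) (le_trans (by positivity) p1)).trans ?_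
  simp only [Fin.prod_univ_succ, Fin.prod_univ_zero, Matrix.cons_val_zero, Matrix.cons_val_succ]
  have : (0 : ℝ) ≤ (u : ℝ) ^ 18 := by positivity
  nlinarith

theorem rsup_ge (X : ℕ) :
    (X : ℝ) ≤ ((univ.sup fun j => max (rb X j).natAbs 1 : ℕ) : ℝ) := by
  have h1 : max (rb X 0).natAbs 1 ≤ univ.sup fun j => max (rb X j).natAbs 1 :=
    Finset.le_sup (f := fun j => max (rb X j).natAbs 1) (mem_univ 0)
  have h2 : X ≤ max (rb X 0).natAbs 1 := by
    have : rb X 0 = 6068472268320 * (X : ℤ) + 3354992875262301 := rfl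
    rw [this]
    omega
  exact_mod_cast h2.trans h1

/-- The family violates the inequality with `ε = 1 / 18` and any positive constant. -/
theorem rat_family (c : ℝ) (hc : 0 < c) : ∃ (a : Fin 5 → ℚ) (b : Fin 5 → ℤ), (∀ j, 0 < a j) ∧
    (∑ j, (b j : ℝ) * log (a j : ℝ)) ≠ 0 ∧
    |∑ j, (b j : ℝ) * log (a j : ℝ)| ≤
      c * ((univ.sup fun j => max (b j).natAbs 1 : ℕ) : ℝ) /
        ((∏ j, ((max (b j).natAbs 1 : ℕ) : ℝ)) *
          (∏ j, ((max (a j).num.natAbs (a j).den : ℕ) : ℝ) ^ 2)) ^ (1 + 1 / 18 : ℝ) := by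
  obtain ⟨N, hN⟩ := exists_nat_gt (max 1000 (3 * 10 ^ 37 * (10 ^ 120) ^ 2 / c))
  obtain ⟨u, v, huv, hNu, hv⟩ := pell N
  have hu : (N : ℝ) < u := by exact_mod_cast hNu
  have ht1 : (1000 : ℝ) < u := (lt_of_le_of_lt (le_max_left _ _) hN).trans hu
  have ht2 : 3 * 10 ^ 37 * (10 ^ 120) ^ 2 / c < u :=
    (lt_of_le_of_lt (le_max_right _ _) hN).trans hu
  have ht3 : 1000 ≤ u := by exact_mod_cast ht1.le
  have ht0 : (0 : ℝ) < u := by linarith
  have hu0 : 0 < u := by omega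
  have hsq : 1000000 ≤ u ^ 2 := by
    calc 1000000 = 1000 ^ 2 := by norm_num
      _ ≤ u ^ 2 := Nat.pow_le_pow_left ht3 2
  have hvu : v ≤ u := by nlinarith
  obtain ⟨X, hX2⟩ : ∃ X : ℕ, X = 644 * v ^ 2 + 161 := ⟨_, rfl⟩
  have hX1 : X + 161 = 322 * u ^ 2 := by omega
  have hX3 : 100000000 ≤ X := by omega
  have hX4 : 1000 ≤ X := by omega
  have hX5 : u ^ 2 ≤ X := by omega
  have hX : (10 : ℝ) ^ 8 ≤ (X : ℝ) := by
    have : (100000000 : ℝ) ≤ X := by exact_mod_cast hX3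
    linarith [show (10 : ℝ) ^ 8 = 100000000 by norm_num]
  have hX6 : (u : ℝ) ^ 2 ≤ X := by exact_mod_cast hX5
  refine ⟨ra X u v, rb X, ra_pos X u v hX4 hu0 hv, ?_, ?_⟩
  · rw [sum_eq X u v hX4 hu0 hv hX1 hX2]
    exact lam_ne _ hX
  · rw [sum_eq X u v hX4 hu0 hv hX1 hX2]
    have l1 := lam_le _ hX
    have hH0 : 0 < (∏ j, ((max (rb X j).natAbs 1 : ℕ) : ℝ)) *
        (∏ j, ((max (ra X u v j).num.natAbs (ra X u v j).den : ℕ) : ℝ) ^ 2) := by
      refine mul_pos (Finset.prod_pos fun i _ => ?_) (Finset.prod_pos fun i _ => pow_pos ?_ 2)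
      · exact_mod_cast lt_of_lt_of_le Nat.one_pos (le_max_right _ _)
      · exact_mod_cast lt_of_lt_of_le (ra X u v i).den_pos (le_max_right _ _)
    have l4 := rpow_bound _ (10 ^ 120) u 18 (by norm_num) hH0.le (by norm_num) ht0
      (rheight_le X u v hX4 hu0 hv hvu hX1)
    have l5 := hX6.trans (rsup_ge X)
    have e18 : ((18 : ℕ) : ℝ) = 18 := by norm_num
    rw [e18] at l4
    have l6 := div_le_div₀ (by positivity) (mul_le_mul_of_nonneg_left l5 hc.le)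
        (Real.rpow_pos_of_pos hH0 _) l4
    refine le_trans (l1.trans ?_) l6
    have l7 : (3 * 10 ^ 37 : ℝ) / (X : ℝ) ^ 9 ≤ 3 * 10 ^ 37 / ((u : ℝ) ^ 2) ^ 9 :=
      div_le_div_of_nonneg_left (by positivity) (by positivity)
        (pow_le_pow_left₀ (by positivity) hX6 9)
    refine l7.trans ?_
    rw [div_lt_iff₀ hc] at ht2
    rw [div_le_div_iff₀ (by positivity) (by positivity)]
    have e1 : (3 * 10 ^ 37 * ((10 ^ 120) ^ 2 * (u : ℝ) ^ (18 + 1)))
        = (3 * 10 ^ 37 * (10 ^ 120) ^ 2) * (u : ℝ) ^ 19 := by ring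
    have e2 : c * (u : ℝ) ^ 2 * ((u : ℝ) ^ 2) ^ 9 = (u * c) * (u : ℝ) ^ 19 := by ring
    rw [e1, e2]
    exact mul_le_mul_of_nonneg_right ht2.le (by positivity)

end Pool.Agent.H318Z.LW
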