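import Mathlib

set_option autoImplicit false

namespace Pool.Agent.H318Z.TP

open Polynomial

/-- homogeneous pull-back: `∏ (A - r B)` over the roots `r` of the monic polynomial `F`. -/
noncomputable def pb {R : Type*} [CommRing R] (F A B : R[X]) : R[X] :=
  ((F.map C).scaleRoots B).eval A

lemma pb_map {R S : Type*} [CommRing R] [CommRing S] [Nontrivial S] (φ : R →+* S)
    (F A B : R[X]) (hF : F.Monic) :
    (pb F A B).map φ = pb (F.map φ) (A.map φ) (B.map φ) := by
  unfold pb
  have h1 : (F.map φ).map C = (F.map C).map (mapRingHom φ) := by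
    rw [map_map, map_map]; congr 1; ext x; simp
  have h2 : (mapRingHom φ) (F.map (C : R →+* R[X])).leadingCoeff ≠ 0 := by
    rw [(hF.map _).leadingCoeff]; simp
  have h3 := map_scaleRoots (F.map (C : R →+* R[X])) B (mapRingHom φ) h2
  rw [h1]
  have h4 : B.map φ = mapRingHom φ B := rfl
  have h5 : A.map φ = mapRingHom φ A := rfl
  rw [h4, ← h3, h5, eval_map_apply]
  rfl

lemma pb_prod {R : Type*} [CommRing R] [IsDomain R] (s : Multiset R) (A B : R[X]) :
    pb (s.map (fun r => X - C r)).prod A B = (s.map fun r => A - C r * B).prod := by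
  induction s using Multiset.induction_on with
  | empty => simp [pb]
  | cons a s ih =>
    unfold pb at ih ⊢
    rw [Multiset.map_cons, Multiset.prod_cons, Polynomial.map_mul,
      mul_scaleRoots_of_noZeroDivisors, eval_mul, ih, Multiset.map_cons, Multiset.prod_cons]
    congr 1
    rw [Polynomial.map_sub, map_X, map_C, X_sub_C_scaleRoots]
    simp

lemma pb_eq {S : Type*} [CommRing S] [IsDomain S] (F A B : ℤ[X]) (hF : F.Monic)
    (hs : (F.map (Int.castRingHom S)).Splits) :
    (pb F A B).map (Int.castRingHom S) =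
      ((F.map (Int.castRingHom S)).roots.map fun r =>
        A.map (Int.castRingHom S) - C r * B.map (Int.castRingHom S)).prod := by
  rw [pb_map _ _ _ _ hF, ← pb_prod, ← hs.eq_prod_roots_of_monic (hF.map _)]

lemma fac_monic {S : Type*} [CommRing S] [IsDomain S] (A B : ℤ[X]) (hA : A.Monic)
    (hB : B.natDegree < A.natDegree) (r : S) :
    (A.map (Int.castRingHom S) - C r * B.map (Int.castRingHom S)).Monic ∧
    (A.map (Int.castRingHom S) - C r * B.map (Int.castRingHom S)).natDegree = A.natDegree := by
  have h1 : (C r * B.map (Int.castRingHom S)).natDegree < (A.map (Int.castRingHom S)).natDegree := by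
    rw [hA.natDegree_map]
    exact lt_of_le_of_lt ((natDegree_C_mul_le _ _).trans natDegree_map_le) hB
  refine ⟨(hA.map _).sub_of_left (degree_lt_degree h1), ?_⟩
  rw [natDegree_sub_eq_left_of_natDegree_lt h1, hA.natDegree_map]

lemma pb_monic (F A B : ℤ[X]) (hF : F.Monic) (hA : A.Monic) (hB : B.natDegree < A.natDegree) :
    (pb F A B).Monic ∧ (pb F A B).natDegree = F.natDegree * A.natDegree := by
  have hinj : Function.Injective (Int.castRingHom ℂ) := Int.cast_injective
  have hs : (F.map (Int.castRingHom ℂ)).Splits := IsAlgClosed.splits _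
  have h := pb_eq F A B hF hs
  have hm : ∀ r ∈ (F.map (Int.castRingHom ℂ)).roots,
      (A.map (Int.castRingHom ℂ) - C r * B.map (Int.castRingHom ℂ)).Monic :=
    fun r _ => (fac_monic A B hA hB r).1
  constructor
  · apply monic_of_injective hinj
    rw [h]
    exact monic_multiset_prod_of_monic _ _ hm
  · rw [← natDegree_map_eq_of_injective hinj, h, natDegree_multiset_prod_of_monic]
    · rw [Multiset.map_map]
      have : ∀ r ∈ (F.map (Int.castRingHom ℂ)).roots,
          (natDegree ∘ fun r => A.map (Int.castRingHom ℂ) - C r * B.map (Int.castRingHom ℂ)) r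
            = A.natDegree := fun r _ => (fac_monic A B hA hB r).2
      rw [Multiset.map_congr rfl this, Multiset.map_const', Multiset.sum_replicate,
        ← hs.natDegree_eq_card_roots, hF.natDegree_map, smul_eq_mul]
    · intro f hf
      obtain ⟨r, hr, rfl⟩ := Multiset.mem_map.1 hf
      exact hm r hr

lemma pb_root {S : Type*} [Field S] [IsAlgClosed S] (F A B : ℤ[X]) (hF : F.Monic) (x : S)
    (hx : ((pb F A B).map (Int.castRingHom S)).eval x = 0) :
    ∃ r : S, (F.map (Int.castRingHom S)).eval r = 0 ∧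
      (A.map (Int.castRingHom S)).eval x = r * (B.map (Int.castRingHom S)).eval x := by
  rw [pb_eq F A B hF (IsAlgClosed.splits _), eval_multiset_prod, Multiset.prod_eq_zero_iff,
    Multiset.map_map] at hx
  obtain ⟨r, hr, h0⟩ := Multiset.mem_map.1 hx
  refine ⟨r, (mem_roots (hF.map _).ne_zero).1 hr, ?_⟩
  simpa [sub_eq_zero] using h0

lemma pb_splits {S : Type*} [CommRing S] [IsDomain S] (F A B : ℤ[X]) (hF : F.Monic)
    (hs : (F.map (Int.castRingHom S)).Splits)
    (h : ∀ r : S, (A.map (Int.castRingHom S) - C r * B.map (Int.castRingHom S)).Splits) :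
    ((pb F A B).map (Int.castRingHom S)).Splits := by
  rw [pb_eq F A B hF hs]
  apply Splits.multisetProd
  intro f hf
  obtain ⟨r, -, rfl⟩ := Multiset.mem_map.1 hf
  exact h r

lemma mahler_le_of_circle (p : ℂ[X]) (c : ℝ) (hc : 1 ≤ c)
    (h : ∀ x : ℂ, ‖x‖ = 1 → ‖p.eval x‖ ≤ c) : p.mahlerMeasure ≤ c := by
  by_cases hp : p = 0
  · simp [hp]; linarith
  have h1 : p.logMahlerMeasure ≤ Real.log c := by
    rw [logMahlerMeasure_def]
    apply Real.circleAverage_mono_on_of_le_circle
    · exact (analyticOnNhd_id.aeval_polynomial p).meromorphicOn.circleIntegrable_log_norm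
    · intro x hx
      have hx1 : ‖x‖ = 1 := by simpa using hx
      rcases (norm_nonneg (p.eval x)).eq_or_lt with h0 | h0
      · rw [← h0, Real.log_zero]; exact Real.log_nonneg hc
      · exact Real.log_le_log h0 (h x hx1)
  rw [logMahlerMeasure_eq_log_MahlerMeasure] at h1
  exact (Real.log_le_log_iff (mahlerMeasure_pos_of_ne_zero hp) (by linarith)).1 h1

/-- some irreducible factor is at most average -/
lemma exists_irred_avg (ρ : ℝ) (hρ : 0 < ρ) : ∀ (n : ℕ) (G : ℚ[X]), G.natDegree = n → G.Monic → 0 < n →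
    (G.map (algebraMap ℚ ℂ)).mahlerMeasure ≤ ρ ^ n →
    ∃ g : ℚ[X], g.Monic ∧ Irreducible g ∧ g ∣ G ∧
      (g.map (algebraMap ℚ ℂ)).mahlerMeasure ≤ ρ ^ g.natDegree := by
  intro n
  induction n using Nat.strong_induction_on with
  | _ n ih =>
    intro G hn hG hpos hM
    have hnu : ¬ IsUnit G := by
      intro hu
      have := natDegree_eq_zero_of_isUnit hu
      omega
    obtain ⟨g, hgm, hgi, h, rfl⟩ := exists_monic_irreducible_factor G hnu
    have hhm : h.Monic := hgm.of_mul_monic_left hG
    by_cases hg : (g.map (algebraMap ℚ ℂ)).mahlerMeasure ≤ ρ ^ g.natDegree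
    · exact ⟨g, hgm, hgi, dvd_mul_right _ _, hg⟩
    push Not at hg
    rw [hgm.natDegree_mul hhm] at hn
    have hgpos : 0 < g.natDegree := hgi.natDegree_pos
    rw [Polynomial.map_mul, mahlerMeasure_mul, ← hn, pow_add] at hM
    have hh : (h.map (algebraMap ℚ ℂ)).mahlerMeasure < ρ ^ h.natDegree := by
      by_contra hcon
      push Not at hcon
      have h1 : ρ ^ g.natDegree * ρ ^ h.natDegree <
          (g.map (algebraMap ℚ ℂ)).mahlerMeasure * (h.map (algebraMap ℚ ℂ)).mahlerMeasure :=
        mul_lt_mul hg hcon (by positivity) (mahlerMeasure_nonneg _)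
      linarith
    have hhpos : 0 < h.natDegree := by
      by_contra h0
      have h0' : h.natDegree = 0 := by omega
      rw [h0', hhm.natDegree_eq_zero.1 h0'] at hh
      simp at hh
    obtain ⟨k, hkm, hki, hkd, hk⟩ := ih h.natDegree (by omega) h rfl hhm hhpos hh.le
    exact ⟨k, hkm, hki, hkd.mul_left _, hk⟩

end Pool.Agent.H318Z.TP
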