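import Pool.Agent.H318Z.TPA

set_option autoImplicit false

namespace Pool.Agent.H318Z.TP

open Polynomial

/-- Horner evaluation of an integer coefficient list. -/
def hor {R : Type*} [CommRing R] : List ℤ → R → R
  | [], _ => 0
  | c :: l, x => (c : R) + x * hor l x

/-- The integer polynomial with a given coefficient list. -/
noncomputable def toP : List ℤ → ℤ[X]
  | [] => 0
  | c :: l => C c + X * toP l

lemma eval_toP {R : Type*} [CommRing R] (l : List ℤ) (x : R) :
    ((toP l).map (Int.castRingHom R)).eval x = hor l x := by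
  induction l with
  | nil => simp [toP, hor]
  | cons c l ih => simp [toP, hor, ih]

def addL : List ℤ → List ℤ → List ℤ
  | [], l => l
  | c :: l, [] => c :: l
  | a :: l, b :: m => (a + b) :: addL l m

lemma hor_addL {R : Type*} [CommRing R] (x : R) :
    ∀ l m : List ℤ, hor (addL l m) x = hor l x + hor m x
  | [], l => by simp [addL, hor]
  | c :: l, [] => by simp [addL, hor]
  | a :: l, b :: m => by simp only [addL, hor, hor_addL x l m]; push_cast; ring

lemma hor_mul {R : Type*} [CommRing R] (x : R) (r : ℤ) :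
    ∀ l : List ℤ, hor (l.map (r * ·)) x = r * hor l x
  | [] => by simp [hor]
  | c :: l => by simp only [List.map_cons, hor, hor_mul x r l]; push_cast; ring

/-- coefficients of `l (r + s y)` -/
def shift (r s : ℤ) : List ℤ → List ℤ
  | [] => []
  | c :: l => addL [c] (addL ((shift r s l).map (r * ·)) (0 :: (shift r s l).map (s * ·)))

lemma hor_shift {R : Type*} [CommRing R] (y : R) (r s : ℤ) :
    ∀ l : List ℤ, hor (shift r s l) y = hor l ((r : R) + s * y)
  | [] => by simp [shift, hor]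
  | c :: l => by
    simp only [shift, hor_addL, hor, hor_mul, hor_shift y r s l]; push_cast; ring

lemma hor_div {R : Type*} [CommRing R] (y : R) (M : ℤ) :
    ∀ l : List ℤ, l.all (fun c => c % M == 0) = true → hor l y = M * hor (l.map (· / M)) y
  | [], _ => by simp [hor]
  | c :: l, h => by
    simp only [List.all_cons, Bool.and_eq_true, beq_iff_eq] at h
    have h1 : c = M * (c / M) := (Int.mul_ediv_cancel' (Int.dvd_of_emod_eq_zero h.1)).symm
    simp only [List.map_cons, hor, hor_div y M l h.2]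
    conv_lhs => rw [h1]
    push_cast; ring

lemma hor_lip {R : Type*} [CommRing R] (y z : R) : ∀ l : List ℤ, (y - z) ∣ hor l y - hor l z
  | [] => by simp [hor]
  | c :: l => by
    obtain ⟨t, ht⟩ := hor_lip y z l
    refine ⟨hor l y + z * t, ?_⟩
    simp only [hor]
    linear_combination z * ht

lemma hor_norm (x : ℂ) (hx : ‖x‖ = 1) :
    ∀ l : List ℤ, ‖hor l x‖ ≤ (((l.map Int.natAbs).sum : ℕ) : ℝ)
  | [] => by simp [hor]
  | c :: l => by
    have h := hor_norm x hx l
    simp only [hor, List.map_cons, List.sum_cons, Nat.cast_add]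
    refine (norm_add_le _ _).trans ?_
    rw [norm_mul, hx, one_mul]
    have : ‖(c : ℂ)‖ = (c.natAbs : ℝ) := by
      rw [Complex.norm_intCast, Nat.cast_natAbs, Int.cast_abs]
    linarith

/-- contraction form of Hensel's lemma at `p = 2` -/
lemma hensel2 (φ : ℤ_[2] → ℤ_[2]) (hφ : ∀ y z, (y - z) ∣ φ y - φ z) (c : ℤ_[2]) :
    ∃ y, y + c + 2 * φ y = 0 := by
  have h2 : ‖(2 : ℤ_[2])‖ = 1 / 2 := by
    have := PadicInt.norm_p (p := 2)
    simpa using this
  have hT : ContractingWith (1 / 2) (fun y => -c - 2 * φ y) := by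
    refine ⟨by norm_num, LipschitzWith.of_dist_le_mul fun y z => ?_⟩
    obtain ⟨t, ht⟩ := hφ y z
    rw [dist_eq_norm, dist_eq_norm]
    have : -c - 2 * φ y - (-c - 2 * φ z) = -(2 * ((y - z) * t)) := by
      linear_combination (-2) * ht
    rw [this, norm_neg, norm_mul, norm_mul, h2]
    have ht1 := PadicInt.norm_le_one t
    have := norm_nonneg (y - z)
    push_cast
    nlinarith
  refine ⟨ContractingWith.fixedPoint _ hT, ?_⟩
  have h := ContractingWith.fixedPoint_isFixedPt hT
  unfold Function.IsFixedPt at h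
  linear_combination -h

/-- the certificate for one disc `r + s ℤ₂` -/
def chk (P Q : List ℤ) (r s M : ℤ) : Bool :=
  match shift r s P, shift r s Q with
  | c0 :: c1 :: l, d0 :: m =>
      c0 % M == 0 && d0 % M == 0 && ((c1 - M) :: l).all (fun c => c % (2 * M) == 0) &&
        m.all (fun c => c % (2 * M) == 0)
  | _, _ => false

lemma root_of_chk (P Q : List ℤ) (r s M : ℤ) (h : chk P Q r s M = true) (β : ℤ_[2]) :
    ∃ y : ℤ_[2], hor P ((r : ℤ_[2]) + s * y) = β * hor Q ((r : ℤ_[2]) + s * y) := by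
  unfold chk at h
  split at h
  · rename_i c0 c1 l d0 m hP hQ
    simp only [Bool.and_eq_true, beq_iff_eq] at h
    obtain ⟨⟨⟨h1, h2⟩, h3⟩, h4⟩ := h
    obtain ⟨a0, ha⟩ := Int.dvd_of_emod_eq_zero h1
    obtain ⟨b0, hb⟩ := Int.dvd_of_emod_eq_zero h2
    set U := ((c1 - M) :: l).map (· / (2 * M))
    set W := m.map (· / (2 * M))
    obtain ⟨y, hy⟩ := hensel2 (fun y => hor (0 :: U) y - β * hor (0 :: W) y) (fun y z => by
      have e1 := hor_lip y z (0 :: U)
      have e2 := (hor_lip y z (0 :: W)).mul_left β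
      have := dvd_sub e1 e2
      convert this using 1
      ring) ((a0 : ℤ_[2]) - β * b0)
    refine ⟨y, ?_⟩
    rw [← hor_shift, ← hor_shift, hP, hQ]
    have e3 := hor_div y _ _ h3
    have e4 := hor_div y _ _ h4
    simp only [hor] at e3 hy ⊢
    rw [e4, ha, hb]
    push_cast at e3 hy ⊢
    linear_combination y * e3 + (M : ℤ_[2]) * hy
  · exact absurd h (by simp)

lemma disj (r s r' s' : ℤ) (e : ℕ) (hs : ((2 : ℤ) ^ e) ∣ s) (hs' : ((2 : ℤ) ^ e) ∣ s')
    (h : ¬ ((2 : ℤ) ^ e) ∣ r - r') (y z : ℤ_[2]) : (r : ℤ_[2]) + s * y ≠ r' + s' * z := by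
  intro he
  apply h
  obtain ⟨a, rfl⟩ := hs
  obtain ⟨b, rfl⟩ := hs'
  have := (PadicInt.pow_p_dvd_int_iff (p := 2) e (r - r')).1
    ⟨b * z - a * y, by push_cast at he ⊢; linear_combination he⟩
  simpa using this

lemma splits_of_roots {R : Type*} [CommRing R] [IsDomain R] (F : R[X]) (hF : F ≠ 0) (n : ℕ)
    (hn : F.natDegree = n) (x : Fin n → R) (hx : Function.Injective x)
    (hr : ∀ i, F.eval (x i) = 0) : F.Splits := by
  classical
  rw [splits_iff_card_roots]
  apply le_antisymm (card_roots' F)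
  have h1 : (Finset.univ.image x) ⊆ F.roots.toFinset := by
    intro a ha
    obtain ⟨i, -, rfl⟩ := Finset.mem_image.1 ha
    rw [Multiset.mem_toFinset, mem_roots hF]
    exact hr i
  have h2 := Finset.card_le_card h1
  rw [Finset.card_image_of_injective _ hx, Finset.card_univ, Fintype.card_fin] at h2
  rw [hn]
  exact h2.trans (Multiset.toFinset_card_le _)

lemma toP_monic : ∀ l : List ℤ, (toP (l ++ [1])).Monic ∧ (toP (l ++ [1])).natDegree = l.length
  | [] => by simp [toP]
  | c :: l => by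
    obtain ⟨h1, h2⟩ := toP_monic l
    have h3 : (X * toP (l ++ [1])).Monic := monic_X.mul h1
    have h4 : (X * toP (l ++ [1])).natDegree = l.length + 1 := by
      rw [natDegree_X_mul h1.ne_zero, h2]
    have h5 : (C c).natDegree < (X * toP (l ++ [1])).natDegree := by
      rw [h4, natDegree_C]; omega
    refine ⟨h3.add_of_right (degree_lt_degree h5), ?_⟩
    show (C c + X * toP (l ++ [1])).natDegree = _
    rw [natDegree_add_eq_right_of_natDegree_lt h5, h4, List.length_cons]

lemma toP_natDegree_le : ∀ l : List ℤ, ∀ c, (toP (c :: l)).natDegree ≤ l.length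
  | [], c => by simp [toP]
  | d :: l, c => by
    have h := toP_natDegree_le l d
    show (C c + X * toP (d :: l)).natDegree ≤ _
    refine (natDegree_add_le _ _).trans (max_le (by simp) ?_)
    refine natDegree_mul_le.trans ?_
    rw [natDegree_X, List.length_cons]; omega

def PL : List ℤ := [-5120, 2048, 1280, 2048, 2944, -5376, 1440, 896, 1628, 3464, -1167, -1360,
  -892, -1600, -234, -304, 120, 184]
def QL : List ℤ := [0, 0, 0, 0, 0, 0, 0, 0, 0, 0, 0, 0, 0, 0, 0, 0, 32768]
noncomputable def PP : ℤ[X] := toP (PL ++ [1])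
noncomputable def QQ : ℤ[X] := toP (0 :: QL)

def rr : Fin 18 → ℤ := ![2, 18, 50, 10, 26, 6, 38, 22, 14, 30, 1, 9, 5, 13, 3, 11, 7, 15]
def ee : Fin 18 → ℕ := ![5, 6, 6, 5, 5, 6, 6, 5, 5, 5, 4, 4, 4, 4, 4, 4, 4, 4]
def KK : Fin 18 → ℕ := ![29, 31, 31, 28, 28, 31, 31, 29, 28, 28, 15, 15, 15, 15, 15, 15, 15, 15]

lemma chk_all : ∀ i : Fin 18, chk (PL ++ [1]) (0 :: QL) (rr i) (2 ^ ee i) (2 ^ KK i) = true := by
  decide +kernel

lemma disj_all : ∀ i j : Fin 18, i ≠ j → ¬ ((2 : ℤ) ^ (min (ee i) (ee j))) ∣ rr i - rr j := by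
  decide +kernel

lemma PP_monic : PP.Monic := (toP_monic PL).1
lemma PP_deg : PP.natDegree = 18 := (toP_monic PL).2
lemma QQ_deg : QQ.natDegree < PP.natDegree := by
  rw [PP_deg]
  exact lt_of_le_of_lt (toP_natDegree_le QL 0) (by decide)

lemma PQ_splits (β : ℤ_[2]) :
    (PP.map (Int.castRingHom ℤ_[2]) - C β * QQ.map (Int.castRingHom ℤ_[2])).Splits := by
  obtain ⟨hm, hd⟩ := fac_monic PP QQ PP_monic QQ_deg β
  choose y hy using fun i => root_of_chk _ _ _ _ _ (chk_all i) β
  refine splits_of_roots _ hm.ne_zero 18 (hd.trans PP_deg)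
    (fun i => (rr i : ℤ_[2]) + ((2 ^ ee i : ℤ) : ℤ_[2]) * y i) (fun i j hij => ?_) (fun i => ?_)
  · by_contra hne
    exact disj _ _ _ _ _ (pow_dvd_pow _ (min_le_left _ _)) (pow_dvd_pow _ (min_le_right _ _))
      (disj_all i j hne) _ _ hij
  · rw [eval_sub, eval_mul, eval_C, PP, QQ, eval_toP, eval_toP, hy i, sub_self]

noncomputable def AA : ℤ[X] := toP ([0, -1] ++ [1])
noncomputable def BB : ℤ[X] := toP [2]
lemma AA_monic : AA.Monic := (toP_monic _).1
lemma AA_deg : AA.natDegree = 2 := (toP_monic _).2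
lemma BB_deg : BB.natDegree < AA.natDegree := by
  rw [AA_deg]
  exact lt_of_le_of_lt (toP_natDegree_le [] 2) (by decide)

lemma AB_splits (β : ℤ_[2]) :
    (AA.map (Int.castRingHom ℤ_[2]) - C β * BB.map (Int.castRingHom ℤ_[2])).Splits := by
  obtain ⟨hm, hd⟩ := fac_monic AA BB AA_monic BB_deg β
  obtain ⟨y, hy⟩ := root_of_chk ([0, -1] ++ [1]) [2] 0 2 2 (by decide +kernel) β
  obtain ⟨z, hz⟩ := root_of_chk ([0, -1] ++ [1]) [2] 1 2 2 (by decide +kernel) β
  have hne := disj 0 2 1 2 1 (by norm_num) (by norm_num) (by norm_num) y z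
  refine splits_of_roots _ hm.ne_zero 2 (hd.trans AA_deg)
    ![((0 : ℤ) : ℤ_[2]) + ((2 : ℤ) : ℤ_[2]) * y, ((1 : ℤ) : ℤ_[2]) + ((2 : ℤ) : ℤ_[2]) * z]
    (fun i j hij => ?_) (fun i => ?_)
  · fin_cases i <;> fin_cases j
    · rfl
    · exact absurd hij hne
    · exact absurd hij.symm hne
    · rfl
  · fin_cases i
    · rw [eval_sub, eval_mul, eval_C, AA, BB, eval_toP, eval_toP]
      exact sub_eq_zero.2 hy
    · rw [eval_sub, eval_mul, eval_C, AA, BB, eval_toP, eval_toP]
      exact sub_eq_zero.2 hz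

lemma PQ_mahler (r : ℂ) (hr : ‖r‖ ≤ 3) :
    (PP.map (Int.castRingHom ℂ) - C r * QQ.map (Int.castRingHom ℂ)).mahlerMeasure ≤ 2 ^ 17 := by
  apply mahler_le_of_circle _ _ (by norm_num)
  intro x hx
  rw [eval_sub, eval_mul, eval_C, PP, QQ, eval_toP, eval_toP]
  have h1 := hor_norm x hx (PL ++ [1])
  have h2 := hor_norm x hx (0 :: QL)
  have e1 : ((PL ++ [1]).map Int.natAbs).sum = 32106 := by decide +kernel
  have e2 : ((0 :: QL).map Int.natAbs).sum = 32768 := by decide +kernel
  rw [e1] at h1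
  rw [e2] at h2
  refine (norm_sub_le _ _).trans ?_
  rw [norm_mul]
  have h3 : ‖r‖ * ‖hor (0 :: QL) x‖ ≤ 3 * 32768 :=
    mul_le_mul hr (by exact_mod_cast h2) (norm_nonneg _) (by norm_num)
  push_cast at h1
  linarith

end Pool.Agent.H318Z.TP
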