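import Pool.Agent.H318Z.TPB

set_option autoImplicit false

namespace Pool.Agent.H318Z.TP

open Polynomial

/-- iterated preimages of `1` under `x ↦ (x² - x)/2` -/
noncomputable def FF : ℕ → ℤ[X]
  | 0 => X - C 1
  | j + 1 => pb (FF j) AA BB

lemma FF_monic : ∀ j, (FF j).Monic ∧ 0 < (FF j).natDegree
  | 0 => ⟨monic_X_sub_C 1, by rw [FF, natDegree_X_sub_C]; norm_num⟩
  | j + 1 => by
    obtain ⟨h1, h2⟩ := FF_monic j
    obtain ⟨h3, h4⟩ := pb_monic (FF j) AA BB h1 AA_monic BB_deg
    refine ⟨h3, ?_⟩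
    rw [FF, h4, AA_deg]; omega

lemma FF_splits : ∀ j, ((FF j).map (Int.castRingHom ℤ_[2])).Splits
  | 0 => by
    rw [FF, Polynomial.map_sub, map_X, map_C]
    exact Splits.X_sub_C _
  | j + 1 => pb_splits _ _ _ (FF_monic j).1 (FF_splits j) AB_splits

lemma FF_step {S : Type*} [Field S] [IsAlgClosed S] (j : ℕ) (x : S)
    (hx : ((FF (j + 1)).map (Int.castRingHom S)).eval x = 0) :
    ∃ r : S, ((FF j).map (Int.castRingHom S)).eval r = 0 ∧ x ^ 2 - x = 2 * r := by
  obtain ⟨r, hr, h⟩ := pb_root (FF j) AA BB (FF_monic j).1 x hx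
  refine ⟨r, hr, ?_⟩
  rw [AA, BB, eval_toP, eval_toP] at h
  simp only [List.cons_append, List.nil_append, hor] at h
  push_cast at h
  linear_combination h

lemma FF_bound : ∀ j, ∀ z : ℂ, ((FF j).map (Int.castRingHom ℂ)).eval z = 0 → ‖z‖ ≤ 3
  | 0, z, h => by
    simp [FF, sub_eq_zero] at h
    rw [h]; norm_num
  | j + 1, z, h => by
    obtain ⟨r, hr, h2⟩ := FF_step j z h
    have h3 := FF_bound j r hr
    by_contra hc
    push Not at hc
    have h4 : ‖z ^ 2 - z‖ ≤ 6 := by
      rw [h2, norm_mul]; simp only [Complex.norm_ofNat]; linarith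
    have h5 : ‖z ^ 2‖ - ‖z‖ ≤ ‖z ^ 2 - z‖ := norm_sub_norm_le _ _
    rw [norm_pow] at h5
    nlinarith

lemma FF_iter {S : Type*} [Field S] [IsAlgClosed S] [CharZero S] :
    ∀ j, ∀ x : S, ((FF j).map (Int.castRingHom S)).eval x = 0 →
      (fun t : S => (t ^ 2 - t) / 2)^[j] x = 1
  | 0, x, h => by simpa [FF, sub_eq_zero] using h
  | j + 1, x, h => by
    obtain ⟨r, hr, h2⟩ := FF_step j x h
    rw [Function.iterate_succ_apply]
    have : (x ^ 2 - x) / 2 = r := by rw [h2]; ring
    simp only [this]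
    exact FF_iter j r hr

lemma FF_disj {S : Type*} [Field S] [IsAlgClosed S] [CharZero S] (i j : ℕ) (hij : i < j) (x : S)
    (hi : ((FF i).map (Int.castRingHom S)).eval x = 0)
    (hj : ((FF j).map (Int.castRingHom S)).eval x = 0) : False := by
  have h1 := FF_iter i x hi
  have h2 := FF_iter j x hj
  obtain ⟨k, rfl⟩ := Nat.exists_eq_add_of_lt hij
  rw [show i + k + 1 = (k + 1) + i by ring, Function.iterate_add_apply, h1,
    Function.iterate_succ_apply] at h2
  have h0 : ((1 : S) ^ 2 - 1) / 2 = 0 := by norm_num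
  simp only [h0] at h2
  rw [Function.iterate_fixed (by norm_num)] at h2
  exact zero_ne_one h2

noncomputable def GG (j : ℕ) : ℤ[X] := pb (FF j) PP QQ

lemma GG_monic (j : ℕ) : (GG j).Monic ∧ (GG j).natDegree = (FF j).natDegree * 18 := by
  have := pb_monic (FF j) PP QQ (FF_monic j).1 PP_monic QQ_deg
  rwa [PP_deg] at this

lemma GG_splits (j : ℕ) : ((GG j).map (Int.castRingHom ℤ_[2])).Splits :=
  pb_splits _ _ _ (FF_monic j).1 (FF_splits j) PQ_splits

lemma GG_mahler (j : ℕ) :
    ((GG j).map (Int.castRingHom ℂ)).mahlerMeasure ≤ ((2 : ℝ) ^ 17) ^ (FF j).natDegree := by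
  have hs : ((FF j).map (Int.castRingHom ℂ)).Splits := IsAlgClosed.splits _
  have hm := (FF_monic j).1
  rw [GG, pb_eq _ _ _ hm hs, prod_mahlerMeasure_eq_mahlerMeasure_prod,
    ← hm.natDegree_map (Int.castRingHom ℂ), hs.natDegree_eq_card_roots, Multiset.map_map]
  have key : ∀ s : Multiset ℂ, (∀ r ∈ s, ‖r‖ ≤ 3) →
      (s.map ((fun p : ℂ[X] => p.mahlerMeasure) ∘ fun r =>
        PP.map (Int.castRingHom ℂ) - C r * QQ.map (Int.castRingHom ℂ))).prod
          ≤ ((2 : ℝ) ^ 17) ^ s.card := by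
    intro s
    induction s using Multiset.induction_on with
    | empty => simp
    | cons a s ih =>
      intro h
      rw [Multiset.map_cons, Multiset.prod_cons, Multiset.card_cons, pow_succ']
      refine mul_le_mul (PQ_mahler a (h a (Multiset.mem_cons_self _ _)))
        (ih fun r hr => h r (Multiset.mem_cons_of_mem hr)) ?_ (by positivity)
      apply Multiset.prod_nonneg
      intro x hx
      obtain ⟨r, -, rfl⟩ := Multiset.mem_map.1 hx
      exact mahlerMeasure_nonneg _
  exact key _ fun r hr => FF_bound j r ((mem_roots (hm.map _).ne_zero).1 hr)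

lemma GG_disj {S : Type*} [Field S] [IsAlgClosed S] [CharZero S] (i j : ℕ) (hij : i < j) (x : S)
    (hi : ((GG i).map (Int.castRingHom S)).eval x = 0)
    (hj : ((GG j).map (Int.castRingHom S)).eval x = 0) : False := by
  obtain ⟨r, hr, h1⟩ := pb_root _ _ _ (FF_monic i).1 x hi
  obtain ⟨t, ht, h2⟩ := pb_root _ _ _ (FF_monic j).1 x hj
  rw [PP, QQ, eval_toP, eval_toP] at h1 h2
  have hq : hor (0 :: QL) x = 32768 * x ^ 17 := by
    simp only [QL, hor]; push_cast; ring
  have hx : x ≠ 0 := by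
    rintro rfl
    rw [hq] at h1
    simp [PL, hor] at h1
  have hq0 : hor (0 :: QL) x ≠ 0 := by
    rw [hq]; exact mul_ne_zero (by norm_num) (pow_ne_zero _ hx)
  have : r = t := mul_right_cancel₀ hq0 (h1.symm.trans h2)
  subst this
  exact FF_disj i j hij r hr ht

lemma exists_root (j : ℕ) : ∃ α : AlgebraicClosure ℚ,
    ((GG j).map (Int.castRingHom (AlgebraicClosure ℚ))).eval α = 0 ∧ IsIntegral ℤ α ∧
    ((minpoly ℚ α).map (algebraMap ℚ ℚ_[2])).roots.card = (minpoly ℚ α).natDegree ∧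
    Real.log (((minpoly ℚ α).map (algebraMap ℚ ℂ)).mahlerMeasure) / ((minpoly ℚ α).natDegree : ℝ)
      ≤ 17 / 18 * Real.log 2 := by
  obtain ⟨hm, hd⟩ := GG_monic j
  have hpos := (FF_monic j).2
  set ρ : ℝ := Real.exp (17 / 18 * Real.log 2) with hρ
  have hρ18 : ρ ^ 18 = 2 ^ 17 := by
    rw [hρ, ← Real.exp_nat_mul, show ((18 : ℕ) : ℝ) * (17 / 18 * Real.log 2) = (17 : ℕ) * Real.log 2 by
      push_cast; ring, Real.exp_nat_mul, Real.exp_log (by norm_num)]
  have hmap : ∀ (S : Type) [Field S] [CharZero S],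
      ((GG j).map (Int.castRingHom ℚ)).map (algebraMap ℚ S) = (GG j).map (Int.castRingHom S) := by
    intro S _ _
    rw [map_map]; congr 1; exact RingHom.ext_int _ _
  obtain ⟨g, hgm, hgi, hgd, hgM⟩ := exists_irred_avg ρ (Real.exp_pos _) ((FF j).natDegree * 18)
    ((GG j).map (Int.castRingHom ℚ)) (by rw [hm.natDegree_map, hd]) (hm.map _) (by omega) (by
      rw [hmap, mul_comm, pow_mul, hρ18]; exact GG_mahler j)
  have hgpos : 0 < g.natDegree := hgi.natDegree_pos
  obtain ⟨α, hα⟩ := IsAlgClosed.exists_aeval_eq_zero (AlgebraicClosure ℚ) g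
    (by rw [degree_eq_natDegree hgm.ne_zero]; exact_mod_cast hgpos.ne')
  have hmin : minpoly ℚ α = g := (minpoly.eq_of_irreducible_of_monic hgi hα hgm).symm
  have hroot : ((GG j).map (Int.castRingHom (AlgebraicClosure ℚ))).eval α = 0 := by
    rw [← hmap, eval_map_algebraMap]
    exact aeval_eq_zero_of_dvd_aeval_eq_zero hgd hα
  refine ⟨α, hroot, ⟨GG j, hm, ?_⟩, ?_, ?_⟩
  · rw [← eval_map]; exact hroot
  · rw [hmin]
    have hs : ((GG j).map (Int.castRingHom ℚ_[2])).Splits := by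
      have := (GG_splits j).map (PadicInt.Coe.ringHom (p := 2))
      rw [map_map] at this
      convert this using 2
      exact RingHom.ext_int _ _
    have hd2 := Polynomial.map_dvd (algebraMap ℚ ℚ_[2]) hgd
    rw [hmap] at hd2
    rw [← (hs.of_dvd (hm.map _).ne_zero hd2).natDegree_eq_card_roots, hgm.natDegree_map]
  · rw [hmin, div_le_iff₀ (by exact_mod_cast hgpos)]
    have h1 := Real.log_le_log (mahlerMeasure_pos_of_ne_zero (hgm.map _).ne_zero) hgM
    rw [Real.log_pow, hρ, Real.log_exp] at h1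
    linarith

/-- Infinitely many totally `2`-adic algebraic integers of height at most `(17/18) log 2`. -/
theorem infinite_small : Set.Infinite {α : AlgebraicClosure ℚ | IsIntegral ℤ α ∧
    ((minpoly ℚ α).map (algebraMap ℚ ℚ_[2])).roots.card = (minpoly ℚ α).natDegree ∧
    Real.log (((minpoly ℚ α).map (algebraMap ℚ ℂ)).mahlerMeasure) / ((minpoly ℚ α).natDegree : ℝ)
      ≤ 17 / 18 * Real.log 2} := by
  choose a ha using exists_root
  refine Set.infinite_of_injective_forall_mem (f := a) (fun i j hij => ?_) (fun j => (ha j).2)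
  rcases lt_trichotomy i j with h | h | h
  · exact (GG_disj i j h (a i) (ha i).1 (hij ▸ (ha j).1)).elim
  · exact h
  · exact (GG_disj j i h (a i) (hij ▸ (ha j).1) (ha i).1).elim

end Pool.Agent.H318Z.TP
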