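import Mathlib

set_option autoImplicit false

namespace Pool.Agent.H318Z.TW

open MeasureTheory Set
open scoped ENNReal NNReal

/-- reals whose integer part has only base-4 digits `0, 1` -/
def K : Set ℝ := {x | ∀ l : ℕ, ⌊x / 4 ^ l⌋ % 4 ≤ 1}

def B (l : ℕ) (m : ℤ) : Set ℝ := {x | ⌊x / 4 ^ l⌋ = m}

def Good (m : ℤ) : Prop := ∀ l : ℕ, (m / 4 ^ l) % 4 ≤ 1

lemma B_eq (l : ℕ) (m : ℤ) : B l m = Ico ((m : ℝ) * 4 ^ l) ((m + 1) * 4 ^ l) := by
  ext x
  have h : (0 : ℝ) < 4 ^ l := by positivity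
  simp only [B, mem_ofPred_eq, Int.floor_eq_iff, mem_Ico, le_div_iff₀ h, div_lt_iff₀ h]

lemma B_meas (l : ℕ) (m : ℤ) : MeasurableSet (B l m) := by rw [B_eq]; exact measurableSet_Ico

lemma K_meas : MeasurableSet K := by
  have : K = ⋂ l : ℕ, (fun x : ℝ => ⌊x / 4 ^ l⌋) ⁻¹' {m | m % 4 ≤ 1} := by
    ext x; simp [K]
  rw [this]
  exact MeasurableSet.iInter fun l =>
    (Int.measurable_floor.comp (measurable_id.div_const _)) (MeasurableSet.of_discrete)

lemma zero_mem : (0 : ℝ) ∈ K := fun l => by simp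

lemma floor_succ (x : ℝ) (l : ℕ) : ⌊x / 4 ^ (l + 1)⌋ = ⌊x / 4 ^ l⌋ / 4 := by
  have := Int.floor_div_natCast (x / 4 ^ l) 4
  rw [pow_succ, ← div_div]
  exact_mod_cast this

lemma Good.mul {m : ℤ} (h : Good m) (d : ℤ) (h0 : 0 ≤ d) (h1 : d ≤ 1) : Good (4 * m + d) := by
  intro l
  rcases l with _ | l
  · simp; omega
  · rw [pow_succ', ← Int.ediv_ediv_of_nonneg (by norm_num), show (4 * m + d) / 4 = m by omega]
    exact h l

lemma good_zero : Good 0 := fun l => by simp

lemma split (l : ℕ) (m : ℤ) : K ∩ B (l + 1) m = K ∩ B l (4 * m) ∪ K ∩ B l (4 * m + 1) := by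
  ext x
  simp only [mem_inter_iff, mem_union, B, mem_ofPred_eq, floor_succ]
  constructor
  · rintro ⟨h1, h2⟩
    have := h1 l
    have h3 : ⌊x / 4 ^ l⌋ = 4 * m ∨ ⌊x / 4 ^ l⌋ = 4 * m + 1 := by omega
    tauto
  · rintro (⟨h1, h2⟩ | ⟨h1, h2⟩) <;> exact ⟨h1, by omega⟩

lemma B_disj (l : ℕ) {m n : ℤ} (h : m ≠ n) : Disjoint (B l m) (B l n) :=
  Set.disjoint_left.2 fun _ h1 h2 => h (h1.symm.trans h2)

lemma vol_succ (l : ℕ) (m : ℤ) :
    volume (K ∩ B (l + 1) m) = volume (K ∩ B l (4 * m)) + volume (K ∩ B l (4 * m + 1)) := by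
  rw [split, measure_union ((B_disj l (by omega)).mono inter_subset_right inter_subset_right)
    (K_meas.inter (B_meas _ _))]

lemma vol_le : ∀ (l : ℕ) (m : ℤ), volume (K ∩ B l m) ≤ 2 ^ l
  | 0, m => by
    refine (measure_mono inter_subset_right).trans ?_
    rw [B_eq]; simp
  | l + 1, m => by
    rw [vol_succ, pow_succ, mul_two]
    exact add_le_add (vol_le l _) (vol_le l _)

lemma vol_ge : ∀ (l : ℕ) (m : ℤ), Good m → 2 ^ l ≤ volume (K ∩ B l m)
  | 0, m, h => by
    have : K ∩ B 0 m = B 0 m := by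
      refine inter_eq_right.2 fun x hx l => ?_
      have h1 : ⌊x⌋ = m := by simpa [B] using hx
      have h2 := Int.floor_div_natCast x (4 ^ l)
      push_cast at h2
      rw [h2, h1]
      exact h l
    rw [this, B_eq]; simp
  | l + 1, m, h => by
    rw [vol_succ, pow_succ, mul_two]
    exact add_le_add (vol_ge l _ (by simpa using h.mul 0 le_rfl zero_le_one))
      (vol_ge l _ (h.mul 1 zero_le_one le_rfl))

lemma vol_Icc (a b : ℝ) (hab : a < b) :
    volume (K ∩ Icc a b) ≤ ENNReal.ofReal (4 * √(b - a)) := by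
  have hL : 0 < b - a := by linarith
  have hs : 0 < √(b - a) := Real.sqrt_pos.2 hL
  have hss := Real.mul_self_sqrt hL.le
  by_cases h1 : b - a < 1
  · refine (measure_mono inter_subset_right).trans ?_
    rw [Real.volume_Icc]
    apply ENNReal.ofReal_le_ofReal
    have : √(b - a) < 1 := by rw [Real.sqrt_lt' one_pos]; simpa using h1
    nlinarith
  · push Not at h1
    obtain ⟨n, hn1, hn2⟩ := exists_nat_pow_near h1 (by norm_num : (1 : ℝ) < 4)
    have hp : (0 : ℝ) < 4 ^ (n + 1) := by positivity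
    set m := ⌊a / 4 ^ (n + 1)⌋ with hm
    have hsub : K ∩ Icc a b ⊆ K ∩ B (n + 1) m ∪ K ∩ B (n + 1) (m + 1) := by
      rintro x ⟨hx, hxa, hxb⟩
      have e1 : m ≤ ⌊x / 4 ^ (n + 1)⌋ := Int.floor_le_floor (by gcongr)
      have e2 : ⌊x / 4 ^ (n + 1)⌋ ≤ m + 1 := by
        rw [hm, ← Int.floor_add_one]
        apply Int.floor_le_floor
        rw [div_add_one hp.ne']
        gcongr
        linarith
      have : ⌊x / 4 ^ (n + 1)⌋ = m ∨ ⌊x / 4 ^ (n + 1)⌋ = m + 1 := by omega
      rcases this with h | h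
      · exact Or.inl ⟨hx, h⟩
      · exact Or.inr ⟨hx, h⟩
    refine (measure_mono hsub).trans ((measure_union_le _ _).trans ?_)
    refine (add_le_add (vol_le _ _) (vol_le _ _)).trans ?_
    have e : (2 : ℝ≥0∞) ^ (n + 1) + 2 ^ (n + 1) = ENNReal.ofReal (4 * 2 ^ n) := by
      rw [ENNReal.ofReal_mul (by norm_num), ENNReal.ofReal_pow (by norm_num)]
      simp only [ENNReal.ofReal_ofNat]
      ring
    rw [e]
    apply ENNReal.ofReal_le_ofReal
    have : (2 : ℝ) ^ n ≤ √(b - a) := by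
      apply Real.le_sqrt_of_sq_le
      rw [← pow_mul, mul_comm, pow_mul]; norm_num; exact hn1
    linarith

noncomputable def D (x : ℝ) : ℝ := Metric.infDist x K

noncomputable def U (x : ℝ) : ℝ≥0∞ := ENNReal.ofReal √(D x)

lemma D_cont : Continuous D := Metric.continuous_infDist_pt K

lemma U_meas : Measurable U := (D_cont.sqrt.measurable).ennreal_ofReal

/-- the maximal function -/
noncomputable def Mx (f : ℝ → ℝ) (x : ℝ) : ℝ≥0∞ :=
  ⨆ a : ℝ, ⨆ b : ℝ, ⨆ (_ : a < x ∧ x < b), ENNReal.ofReal (b - a)⁻¹ * ∫⁻ t in Set.Ioo a b, ‖f t‖ₑ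

lemma lower : ∀ (l : ℕ) (m : ℤ), Good m → ∀ f : ℝ → ℝ, (∀ t ∈ K ∩ B l m, 1 ≤ ‖f t‖ₑ) →
    ENNReal.ofReal (l * 2 ^ l / 16) ≤ ∫⁻ x in B l m, Mx f x ^ (2 : ℝ) * U x
  | 0, m, _, f, _ => by simp
  | l + 1, m, h, f, hf => by
    have h0 := lower l (4 * m) (by simpa using h.mul 0 le_rfl zero_le_one) f
      fun t ht => hf t (by rw [split]; exact Or.inl ht)
    have h1 := lower l (4 * m + 1) (h.mul 1 zero_le_one le_rfl) f
      fun t ht => hf t (by rw [split]; exact Or.inr ht)
    have hp : (0 : ℝ) < 4 ^ l := by positivity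
    have hq : (0 : ℝ) < 2 ^ l := by positivity
    have h42 : (4 : ℝ) ^ l = 2 ^ l * 2 ^ l := by rw [← mul_pow]; norm_num
    set G : Set ℝ := Ico ((4 * m + 5 / 2) * 4 ^ l) ((4 * m + 7 / 2) * 4 ^ l) with hG
    have hsub : B l (4 * m) ∪ B l (4 * m + 1) ∪ G ⊆ B (l + 1) m := by
      rw [B_eq, B_eq, B_eq]
      push_cast
      rintro x ((⟨h1, h2⟩ | ⟨h1, h2⟩) | ⟨h1, h2⟩) <;> constructor <;> rw [pow_succ] <;> nlinarith
    have hd : Disjoint (B l (4 * m) ∪ B l (4 * m + 1)) G := by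
      rw [B_eq, B_eq, Set.disjoint_left]
      push_cast
      rintro x (⟨h1, h2⟩ | ⟨h1, h2⟩) ⟨h3, h4⟩ <;> nlinarith
    have hGl : ENNReal.ofReal (2 ^ (l + 1) / 16) ≤ ∫⁻ x in G, Mx f x ^ (2 : ℝ) * U x := by
      have hpt : ∀ x ∈ G, ENNReal.ofReal ((2 ^ l)⁻¹ / 8) ≤ Mx f x ^ (2 : ℝ) * U x := by
        rintro x ⟨hx1, hx2⟩
        have e1 : ENNReal.ofReal ((2 ^ l)⁻¹ / 2) ≤ Mx f x := by
          refine le_iSup_of_le (m * 4 ^ (l + 1)) (le_iSup_of_le ((m + 1) * 4 ^ (l + 1))
            (le_iSup_of_le ⟨by rw [pow_succ]; nlinarith, by rw [pow_succ]; nlinarith⟩ ?_))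
          rw [setLIntegral_congr Ioo_ae_eq_Ico, ← B_eq]
          have e2 : (2 : ℝ≥0∞) ^ (l + 1) ≤ ∫⁻ t in B (l + 1) m, ‖f t‖ₑ := by
            refine (vol_ge (l + 1) m h).trans (le_trans ?_
              (lintegral_mono_set (inter_subset_right (s := K))))
            rw [← setLIntegral_one]
            exact setLIntegral_mono' (K_meas.inter (B_meas _ _)) hf
          refine le_trans ?_ (mul_le_mul_right e2 _)
          rw [show (2 : ℝ≥0∞) ^ (l + 1) = ENNReal.ofReal (2 ^ (l + 1)) by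
            rw [ENNReal.ofReal_pow (by norm_num)]; simp, ← ENNReal.ofReal_mul (by
              rw [add_mul, add_sub_cancel_left]; positivity)]
          apply ENNReal.ofReal_le_ofReal
          rw [add_mul, add_sub_cancel_left, pow_succ, pow_succ, h42]
          apply le_of_eq
          field_simp
          norm_num
        have e3 : ENNReal.ofReal (2 ^ l / 2) ≤ U x := by
          apply ENNReal.ofReal_le_ofReal
          apply Real.le_sqrt_of_sq_le
          refine le_trans (show _ ≤ (4 : ℝ) ^ l / 2 by rw [h42]; nlinarith) ?_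
          refine (Metric.le_infDist ⟨0, zero_mem⟩).2 fun y hy => ?_
          rw [Real.dist_eq]
          by_contra hc
          push Not at hc
          rw [abs_lt] at hc
          have e4 : 4 * m + 2 ≤ ⌊y / 4 ^ l⌋ := by
            rw [Int.le_floor, le_div_iff₀ hp]; push_cast; nlinarith
          have e5 : ⌊y / 4 ^ l⌋ < 4 * m + 4 := by
            rw [Int.floor_lt, div_lt_iff₀ hp]; push_cast; nlinarith
          have := hy l
          omega
        refine le_trans ?_ (mul_le_mul' (ENNReal.rpow_le_rpow e1 (by norm_num)) e3)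
        rw [ENNReal.rpow_two, ← ENNReal.ofReal_pow (by positivity),
          ← ENNReal.ofReal_mul (by positivity)]
        apply ENNReal.ofReal_le_ofReal
        apply le_of_eq
        field_simp
        norm_num
      refine le_trans ?_ (setLIntegral_mono' measurableSet_Ico hpt)
      rw [setLIntegral_const, hG, Real.volume_Ico, ← ENNReal.ofReal_mul (by positivity)]
      apply ENNReal.ofReal_le_ofReal
      apply le_of_eq
      rw [pow_succ, h42]
      field_simp
      ring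
    refine le_trans ?_ (lintegral_mono_set hsub)
    rw [lintegral_union measurableSet_Ico hd, lintegral_union (B_meas _ _) (B_disj l (by omega))]
    refine le_trans ?_ (add_le_add (add_le_add h0 h1) hGl)
    rw [← ENNReal.ofReal_add (by positivity) (by positivity),
      ← ENNReal.ofReal_add (by positivity) (by positivity)]
    apply ENNReal.ofReal_le_ofReal
    apply le_of_eq
    push_cast
    ring

end Pool.Agent.H318Z.TW
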