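import Pool.Agent.H318Z.TWA

set_option autoImplicit false

namespace Pool.Agent.H318Z.TW

open MeasureTheory Set
open scoped ENNReal NNReal

noncomputable def h (u : ℝ) : ℝ := √u / u ^ 2

lemma h_meas : Measurable h := by unfold h; fun_prop

noncomputable def c0 : ℝ≥0∞ := ∫⁻ s : ℝ, ENNReal.ofReal (h (1 + |s|))

lemma c0_lt : c0 < ∞ := by
  have := finite_integral_one_add_norm (E := ℝ) (μ := volume) (r := 3 / 2) (by simp; norm_num)
  refine lt_of_eq_of_lt (lintegral_congr fun s => ?_) this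
  congr 1
  have hs : 0 < 1 + |s| := by positivity
  rw [h, Real.norm_eq_abs, Real.sqrt_eq_rpow, ← Real.rpow_two, ← Real.rpow_sub hs]
  norm_num

lemma scale (L c : ℝ) (hL : 0 < L) :
    ∫⁻ x : ℝ, ENNReal.ofReal (h (L + |x - c|)) = ENNReal.ofReal (√L)⁻¹ * c0 := by
  rw [lintegral_sub_right_eq_self (fun x => ENNReal.ofReal (h (L + |x|))) c]
  have hm : Measurable fun x : ℝ => ENNReal.ofReal (h (L + |x|)) :=
    (h_meas.comp (measurable_const.add measurable_id.abs)).ennreal_ofReal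
  have h1 := lintegral_map (μ := volume) hm (measurable_const_mul L)
  rw [Real.map_volume_mul_left hL.ne', lintegral_smul_measure] at h1
  have hs : 0 < √L := Real.sqrt_pos.2 hL
  have hss := Real.mul_self_sqrt hL.le
  have h2 : ∀ s : ℝ, ENNReal.ofReal (h (L + |L * s|))
      = ENNReal.ofReal (h L) * ENNReal.ofReal (h (1 + |s|)) := by
    intro s
    rw [← ENNReal.ofReal_mul (by unfold h; positivity), abs_mul, abs_of_pos hL,
      show L + L * |s| = L * (1 + |s|) by ring, h, h, h, Real.sqrt_mul hL.le]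
    congr 1
    field_simp
  simp only [h2] at h1
  rw [lintegral_const_mul' _ _ ENNReal.ofReal_ne_top, abs_of_pos (inv_pos.2 hL), smul_eq_mul] at h1
  have h3 : ENNReal.ofReal L * ENNReal.ofReal L⁻¹ = 1 := by
    rw [← ENNReal.ofReal_mul hL.le, mul_inv_cancel₀ hL.ne', ENNReal.ofReal_one]
  calc _ = ENNReal.ofReal L * (ENNReal.ofReal L⁻¹ * ∫⁻ x : ℝ, ENNReal.ofReal (h (L + |x|))) := by
        rw [← mul_assoc, h3, one_mul]
    _ = _ := by
        rw [h1, ← mul_assoc, ← ENNReal.ofReal_mul hL.le, c0]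
        congr 2
        rw [h]
        field_simp
        nlinarith

lemma D_nonneg (x : ℝ) : 0 ≤ D x := Metric.infDist_nonneg

lemma poisson (a b y : ℝ) (hab : a < b) (hy : y ∈ Icc a b) :
    ∫⁻ x, U x / ENNReal.ofReal ((b - a) ^ (2 : ℝ) + |x - (a + b) / 2| ^ (2 : ℝ))
      ≤ ENNReal.ofReal (2 * √(1 + D y / (b - a)) * (√(b - a))⁻¹) * c0 := by
  have hL : 0 < b - a := by linarith
  rw [ENNReal.ofReal_mul (by positivity), mul_assoc, ← scale (b - a) ((a + b) / 2) hL,
    ← lintegral_const_mul' _ _ ENNReal.ofReal_ne_top]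
  refine lintegral_mono fun x => ?_
  set L := b - a with hLd
  set t := |x - (a + b) / 2| with ht
  have ht0 : 0 ≤ t := abs_nonneg _
  have hD := D_nonneg y
  rw [U, Real.rpow_two, Real.rpow_two, ← ENNReal.ofReal_div_of_pos (by positivity),
    ← ENNReal.ofReal_mul (by positivity)]
  apply ENNReal.ofReal_le_ofReal
  have h1 : D x ≤ D y + (L + t) := by
    have e1 : D x ≤ D y + dist x y := Metric.infDist_le_infDist_add_dist
    have e2 : dist x y ≤ L + t := by
      rw [Real.dist_eq, abs_le]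
      have := le_abs_self (x - (a + b) / 2)
      have := neg_abs_le (x - (a + b) / 2)
      obtain ⟨h1, h2⟩ := hy
      constructor <;> linarith
    linarith
  have h2 : √(D x) ≤ √(1 + D y / L) * √(L + t) := by
    rw [← Real.sqrt_mul (by positivity)]
    apply Real.sqrt_le_sqrt
    have : D y / L * L = D y := div_mul_cancel₀ _ hL.ne'
    have : 0 ≤ D y / L * t := by positivity
    nlinarith
  rw [h, div_le_iff₀ (by positivity)]
  refine h2.trans ?_
  have h3 : 1 ≤ 2 * (L ^ 2 + t ^ 2) / (L + t) ^ 2 := by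
    rw [le_div_iff₀ (by positivity)]; nlinarith [sq_nonneg (L - t)]
  have h4 : 0 ≤ √(1 + D y / L) * √(L + t) := by positivity
  calc _ ≤ √(1 + D y / L) * √(L + t) * (2 * (L ^ 2 + t ^ 2) / (L + t) ^ 2) :=
        le_mul_of_one_le_right h4 h3
    _ = _ := by ring

open Classical in
/-- the finite positive weight `V` -/
noncomputable def V (x : ℝ) : ℝ≥0∞ := if x ∈ K then 1 else ENNReal.ofReal (h (1 + |x|))⁻¹

lemma V_meas : Measurable V :=
  Measurable.ite K_meas measurable_const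
    (h_meas.comp (measurable_const.add measurable_id.abs)).inv.ennreal_ofReal

lemma h_pos (x : ℝ) : 0 < h (1 + |x|) := by unfold h; positivity

lemma h_bd (x : ℝ) : h (1 + |x|) ≤ 1 ∧ √|x| * h (1 + |x|) ≤ 1 := by
  have h0 := abs_nonneg x
  have h1 : √|x| ≤ √(1 + |x|) := Real.sqrt_le_sqrt (by linarith)
  have h2 := Real.mul_self_sqrt (show 0 ≤ 1 + |x| by linarith)
  have h3 : 1 ≤ √(1 + |x|) := Real.one_le_sqrt.2 (by linarith)
  have h4 := Real.sqrt_nonneg |x|
  unfold h
  constructor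
  · rw [div_le_one (by positivity)]; nlinarith
  · rw [← mul_div_assoc, div_le_one (by positivity)]; nlinarith

lemma condP : ∃ Bd : ℝ≥0, ∀ a b : ℝ, a < b →
    (∫⁻ x, U x / ENNReal.ofReal ((b - a) ^ (2 : ℝ) + |x - (a + b) / 2| ^ (2 : ℝ))) *
      (∫⁻ x in Set.Icc a b, V x ^ (-(1 / ((2 : ℝ) - 1)))) ^ ((2 : ℝ) - 1) ≤ (Bd : ℝ≥0∞) := by
  have hc := c0_lt
  refine ⟨(c0 * (8 + 2 * (1 + c0) + 2)).toNNReal, fun a b hab => ?_⟩
  rw [ENNReal.coe_toNNReal (by finiteness)]
  have hL : 0 < b - a := by linarith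
  set L := b - a with hLd
  have hs : 0 < √L := Real.sqrt_pos.2 hL
  have hss := Real.mul_self_sqrt hL.le
  set P := ∫⁻ x, U x / ENNReal.ofReal (L ^ (2 : ℝ) + |x - (a + b) / 2| ^ (2 : ℝ)) with hP
  have hPfin : P ≠ ∞ :=
    ne_top_of_le_ne_top (by finiteness) (poisson a b a hab ⟨le_rfl, hab.le⟩)
  rw [show (2 : ℝ) - 1 = 1 by norm_num, ENNReal.rpow_one, div_one,
    ← lintegral_const_mul' _ _ hPfin]
  have hpt : ∀ y ∈ Icc a b, P * V y ^ (-1 : ℝ) ≤
      c0 * (ENNReal.ofReal (2 * (√L)⁻¹) * K.indicator 1 y +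
        ENNReal.ofReal (2 * (√L)⁻¹) * ENNReal.ofReal (h (1 + |y|)) + ENNReal.ofReal (2 * L⁻¹)) := by
    intro y hy
    have h1 := poisson a b y hab hy
    rw [← hLd, ← hP] at h1
    rw [ENNReal.rpow_neg_one]
    by_cases hK : y ∈ K
    · have : D y = 0 := Metric.infDist_zero_of_mem hK
      rw [this] at h1
      simp only [V, hK, if_true, inv_one, mul_one, indicator_of_mem, Pi.one_apply]
      refine h1.trans ?_
      rw [mul_comm]
      simp only [zero_div, add_zero, Real.sqrt_one, mul_one]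
      exact mul_le_mul_right (le_self_add.trans le_self_add) _
    · simp only [V, hK, if_false, indicator_of_notMem, not_false_eq_true, mul_zero, zero_add]
      rw [← ENNReal.ofReal_inv_of_pos (inv_pos.2 (h_pos y)), inv_inv]
      refine (mul_le_mul_left h1 _).trans ?_
      rw [mul_comm _ c0, mul_assoc]
      refine mul_le_mul_right ?_ _
      have hh := h_pos y
      rw [← ENNReal.ofReal_mul (by positivity), ← ENNReal.ofReal_mul (by positivity),
        ← ENNReal.ofReal_add (by positivity) (by positivity)]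
      apply ENNReal.ofReal_le_ofReal
      have e1 : D y ≤ |y| := by
        have := Metric.infDist_le_dist_of_mem (x := y) zero_mem
        simpa [Real.dist_eq, D] using this
      have e2 : √(1 + D y / L) ≤ 1 + √|y| * (√L)⁻¹ := by
        apply Real.sqrt_le_iff.2 ⟨by positivity, ?_⟩
        have e3 : (√|y| * (√L)⁻¹) ^ 2 = |y| / L := by
          rw [mul_pow, inv_pow, Real.sq_sqrt (abs_nonneg _), Real.sq_sqrt hL.le, div_eq_mul_inv]
        have e4 : D y / L ≤ |y| / L := by gcongr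
        have e5 : 0 ≤ √|y| * (√L)⁻¹ := by positivity
        nlinarith
      have e6 : (√L)⁻¹ * (√L)⁻¹ = L⁻¹ := by rw [← mul_inv, hss]
      have e7 := (h_bd y).2
      have e8 : 0 < (√L)⁻¹ := by positivity
      calc 2 * √(1 + D y / L) * (√L)⁻¹ * h (1 + |y|)
          ≤ 2 * (1 + √|y| * (√L)⁻¹) * (√L)⁻¹ * h (1 + |y|) := by gcongr
        _ = 2 * (√L)⁻¹ * h (1 + |y|) + 2 * ((√L)⁻¹ * (√L)⁻¹) * (√|y| * h (1 + |y|)) := by ring
        _ ≤ 2 * (√L)⁻¹ * h (1 + |y|) + 2 * ((√L)⁻¹ * (√L)⁻¹) * 1 := by gcongr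
        _ = _ := by rw [e6]; ring
  refine (setLIntegral_mono' measurableSet_Icc hpt).trans ?_
  rw [lintegral_const_mul' _ _ hc.ne]
  refine mul_le_mul_right ?_ _
  have hm : Measurable fun y : ℝ => ENNReal.ofReal (h (1 + |y|)) :=
    (h_meas.comp (measurable_const.add measurable_id.abs)).ennreal_ofReal
  rw [lintegral_add_right _ measurable_const, lintegral_add_right _ (hm.const_mul _),
    lintegral_const_mul' _ _ ENNReal.ofReal_ne_top, lintegral_const_mul' _ _ ENNReal.ofReal_ne_top,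
    lintegral_indicator_one K_meas, Measure.restrict_apply K_meas, setLIntegral_const,
    Real.volume_Icc]
  refine add_le_add (add_le_add ?_ ?_) ?_
  · refine (mul_le_mul_right (vol_Icc a b hab) _).trans ?_
    rw [← ENNReal.ofReal_mul (by positivity), ← hLd,
      show 2 * (√L)⁻¹ * (4 * √L) = 8 by field_simp; norm_num]
    simp
  · rw [ENNReal.ofReal_mul (by norm_num), mul_assoc, ENNReal.ofReal_ofNat]
    refine mul_le_mul_right ?_ _
    by_cases h1 : L ≤ 1
    · have e1 : ∫⁻ y in Icc a b, ENNReal.ofReal (h (1 + |y|)) ≤ ENNReal.ofReal L := by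
        refine (lintegral_mono fun y => ENNReal.ofReal_le_one.2 (h_bd y).1).trans ?_
        rw [setLIntegral_one, Real.volume_Icc]
      refine (mul_le_mul_right e1 _).trans (le_trans ?_ le_self_add)
      rw [← ENNReal.ofReal_mul (by positivity)]
      apply ENNReal.ofReal_le_one.2
      have : √L ≤ 1 := Real.sqrt_le_one.2 h1
      rw [inv_mul_le_iff₀ hs]
      nlinarith
    · have e1 : ∫⁻ y in Icc a b, ENNReal.ofReal (h (1 + |y|)) ≤ c0 :=
        setLIntegral_le_lintegral _ _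
      have e2 : ENNReal.ofReal (√L)⁻¹ ≤ 1 := by
        apply ENNReal.ofReal_le_one.2
        exact inv_le_one_of_one_le₀ (Real.one_le_sqrt.2 (by linarith))
      refine (mul_le_mul' e2 e1).trans ?_
      rw [one_mul]; exact le_add_self
  · rw [← ENNReal.ofReal_mul (by positivity), ← hLd, show 2 * L⁻¹ * L = 2 by field_simp]
    simp

lemma notS (C : ℝ≥0) : ∃ f : ℝ → ℝ, Measurable f ∧
    (C : ℝ≥0∞) * ∫⁻ x, ‖f x‖ₑ ^ (2 : ℝ) * V x < ∫⁻ x, Mx f x ^ (2 : ℝ) * U x := by
  obtain ⟨N, hN⟩ := exists_nat_gt (16 * (C : ℝ))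
  have hm := K_meas.inter (B_meas N 0)
  refine ⟨(K ∩ B N 0).indicator 1, measurable_one.indicator hm, ?_⟩
  have h1 := lower N 0 good_zero ((K ∩ B N 0).indicator 1) fun t ht => by
    rw [indicator_of_mem ht]; simp
  refine lt_of_lt_of_le ?_ (h1.trans (setLIntegral_le_lintegral _ _))
  have h2 : ∫⁻ x, ‖(K ∩ B N 0).indicator (1 : ℝ → ℝ) x‖ₑ ^ (2 : ℝ) * V x ≤ 2 ^ N := by
    refine le_trans (lintegral_mono fun x => ?_)
      ((lintegral_indicator_one hm).le.trans (vol_le N 0))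
    by_cases hx : x ∈ K ∩ B N 0
    · simp [indicator_of_mem hx, V, hx.1]
    · simp [indicator_of_notMem hx]
  refine lt_of_le_of_lt (mul_le_mul_right h2 _) ?_
  rw [show (C : ℝ≥0∞) * 2 ^ N = ENNReal.ofReal (C * 2 ^ N) by
    rw [ENNReal.ofReal_mul C.coe_nonneg, ENNReal.ofReal_pow (by norm_num)]; simp]
  have hq : (0 : ℝ) < 2 ^ N := by positivity
  have hC : (0 : ℝ) ≤ C := C.2
  rw [ENNReal.ofReal_lt_ofReal_iff (by nlinarith)]
  nlinarith

end Pool.Agent.H318Z.TW
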